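import Pool.Agent.MP_3173ec_pr.Mg.Parity

open Filter Topology

namespace Pool.Agent.MP_3173ec_pr

/-- No linear upper bound for the overhead holds for all large `n`. -/
theorem neg_form : ¬ ∃ (C : ℝ) (N : ℕ), ∀ (n : ℕ) (hn : 2 ≤ n), N ≤ n → ∃ v : Fin n,
      expCover hn v ≤ ENNReal.ofReal ((n.choose 2 : ℝ) + C * n) := by
  rintro ⟨C, N, h⟩
  have hH : Tendsto (fun k : ℕ => (harmonic k : ℝ)) atTop atTop := by
    have := Real.tendsto_sum_range_one_div_nat_succ_atTop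
    refine this.congr fun k => ?_
    simp [harmonic]
  obtain ⟨k, hk1, hk2⟩ := ((hH.eventually_gt_atTop (4 * |C|)).and (eventually_ge_atTop N)).exists
  have hn : 2 ≤ 2 * (k + 1) := by omega
  obtain ⟨v, hv⟩ := h (2 * (k + 1)) hn (by omega)
  have h1 := even_lower hn (even_two_mul _) v
  have h2 := h1.trans hv
  have hk : 2 * (k + 1) / 2 - 1 = k := by omega
  rw [hk] at h2
  have hC : C ≤ |C| := le_abs_self C
  have hC0 : 0 ≤ |C| := abs_nonneg C
  have hk0 : (0 : ℝ) ≤ k := Nat.cast_nonneg k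
  have hpos : (0 : ℝ) < ((2 * (k + 1)).choose 2 : ℝ) := by
    exact_mod_cast Nat.choose_pos hn
  have h3 : ((2 * (k + 1)).choose 2 : ℝ) + C * ((2 * (k + 1) : ℕ) : ℝ) <
      ((2 * (k + 1)).choose 2 : ℝ) + (((2 * (k + 1) : ℕ) : ℝ) - 1) / 2 * (harmonic k : ℝ) := by
    push_cast
    nlinarith
  have h4 : (0 : ℝ) < ((2 * (k + 1)).choose 2 : ℝ) +
      (((2 * (k + 1) : ℕ) : ℝ) - 1) / 2 * (harmonic k : ℝ) := by
    push_cast
    nlinarith
  exact absurd h2 (not_le.2 ((ENNReal.ofReal_lt_ofReal_iff h4).2 h3))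

end Pool.Agent.MP_3173ec_pr
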