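import Pool.Agent.MP_3173ec_pr.Mg.Parity

-- part MP_3173ec_pr.OddMart
section

/-!
Transition-system martingales for the greedy random walk.
-/

open Finset

namespace Pool.Agent.MP_3173ec_pr

variable {n : ℕ}

/-- one transition factor -/
noncomputable def af (D i : ℕ) : ℝ := if Even D then 1 / ((D - 1 - 2 * i : ℕ) : ℝ) else 0

/-- product of `j` transition factors -/
noncomputable def phi (D j : ℕ) : ℝ := ∏ i ∈ range j, af D i

theorem af_nonneg (D i : ℕ) : 0 ≤ af D i := by
  unfold af; split_ifs <;> positivity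

theorem af_le_one (D i : ℕ) : af D i ≤ 1 := by
  unfold af
  split_ifs
  · rcases Nat.eq_zero_or_pos (D - 1 - 2 * i) with h | h
    · rw [h]; simp
    · rw [div_le_one (by exact_mod_cast h)]; exact_mod_cast h
  · norm_num

theorem phi_nonneg (D j : ℕ) : 0 ≤ phi D j := prod_nonneg fun i _ => af_nonneg D i

@[simp] theorem phi_zero (D : ℕ) : phi D 0 = 1 := by simp [phi]

theorem phi_succ (D j : ℕ) : phi D (j + 1) = phi D j * af D j := prod_range_succ _ _

theorem phi_odd {D j : ℕ} (hD : ¬ Even D) (hj : j ≠ 0) : phi D j = 0 := by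
  obtain ⟨j, rfl⟩ := Nat.exists_eq_succ_of_ne_zero hj
  rw [phi_succ, af, if_neg hD, mul_zero]

theorem phi_shift_even {D : ℕ} (hD : Even D) (j : ℕ) (hj : 2 * j ≤ D) :
    ((D + 1 - 2 * j : ℕ) : ℝ) * phi D j = ((D + 1 : ℕ) : ℝ) * phi (D + 2) j := by
  induction j with
  | zero => simp
  | succ j ih =>
    have ih := ih (by omega)
    have h2 : Even (D + 2) := hD.add even_two
    rw [phi_succ, phi_succ, ← mul_assoc ((D + 1 : ℕ) : ℝ), ← ih, af, af, if_pos hD, if_pos h2]
    have e1 : D + 1 - 2 * (j + 1) = D - 1 - 2 * j := by omega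
    have e2 : D + 2 - 1 - 2 * j = D + 1 - 2 * j := by omega
    rw [e1, e2]
    have p1 : ((D - 1 - 2 * j : ℕ) : ℝ) ≠ 0 := by
      have : D - 1 - 2 * j ≠ 0 := by omega
      exact_mod_cast this
    have p2 : ((D + 1 - 2 * j : ℕ) : ℝ) ≠ 0 := by
      have : D + 1 - 2 * j ≠ 0 := by omega
      exact_mod_cast this
    field_simp

theorem phi_shift {d j : ℕ} (hd : 0 < d) (hj : 2 * j ≤ d) :
    ((d - 2 * j : ℕ) : ℝ) * phi (d - 1) j = (d : ℝ) * phi (d + 1) j := by
  obtain ⟨D, rfl⟩ : ∃ D, d = D + 1 := ⟨d - 1, by omega⟩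
  rw [Nat.add_sub_cancel]
  by_cases hD : Even D
  · exact phi_shift_even hD j (by obtain ⟨k, hk⟩ := hD; omega)
  · rcases eq_or_ne j 0 with rfl | h0
    · simp
    · rw [phi_odd hD h0, phi_odd (D := D + 1 + 1) (fun h => hD (by
        obtain ⟨k, hk⟩ := h; exact ⟨k - 1, by omega⟩)) h0]
      simp

/-- effective degree -/
def eff (x : Fin n) (H : Finset (Sym2 (Fin n))) (v : Fin n) : ℕ :=
  (fresh v H).card + if v = x then 1 else 0

/-- degree of a vertex in an edge set -/
def degF (F : Finset (Sym2 (Fin n))) (v : Fin n) : ℕ :=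
  (univ.filter fun y => s(v, y) ∈ F).card

/-- an edge set with even degrees `2 j` -/
def Valid (F : Finset (Sym2 (Fin n))) (j : Fin n → ℕ) : Prop :=
  (∀ e ∈ F, ¬ e.IsDiag) ∧ ∀ v, degF F v = 2 * j v

/-- the martingale -/
noncomputable def mart (F : Finset (Sym2 (Fin n))) (j : Fin n → ℕ) (x : Fin n)
    (H : Finset (Sym2 (Fin n))) : ℝ :=
  if Disjoint F H then ∏ v, phi (eff x H v) (j v) else 0

/-- the weight at an all-even state -/
noncomputable def mart0 (F : Finset (Sym2 (Fin n))) (j : Fin n → ℕ)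
    (H : Finset (Sym2 (Fin n))) : ℝ :=
  if Disjoint F H then ∏ v, phi (fresh v H).card (j v) else 0

theorem mart_nonneg (F : Finset (Sym2 (Fin n))) (j : Fin n → ℕ) (x : Fin n)
    (H : Finset (Sym2 (Fin n))) : 0 ≤ mart F j x H := by
  unfold mart; split_ifs
  · exact prod_nonneg fun v _ => phi_nonneg _ _
  · exact le_rfl

theorem mart0_nonneg (F : Finset (Sym2 (Fin n))) (j : Fin n → ℕ)
    (H : Finset (Sym2 (Fin n))) : 0 ≤ mart0 F j H := by
  unfold mart0; split_ifs
  · exact prod_nonneg fun v _ => phi_nonneg _ _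
  · exact le_rfl

theorem filter_fresh_eq {F H : Finset (Sym2 (Fin n))} (hF : ∀ e ∈ F, ¬ e.IsDiag)
    (hD : Disjoint F H) (x : Fin n) :
    (fresh x H).filter (fun y => s(x, y) ∈ F) = univ.filter fun y => s(x, y) ∈ F := by
  ext y
  simp only [mem_filter, mem_univ, true_and, and_iff_right_iff_imp]
  intro h
  refine mem_fresh.2 ⟨fun e => hF _ h (by simp [e]), disjoint_left.1 hD h⟩

theorem degF_le_fresh {F H : Finset (Sym2 (Fin n))} (hF : ∀ e ∈ F, ¬ e.IsDiag)
    (hD : Disjoint F H) (x : Fin n) : degF F x ≤ (fresh x H).card := by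
  unfold degF
  rw [← filter_fresh_eq hF hD]
  exact card_filter_le _ _

theorem card_fresh_notMem {F H : Finset (Sym2 (Fin n))} (hF : ∀ e ∈ F, ¬ e.IsDiag)
    (hD : Disjoint F H) (x : Fin n) :
    ((fresh x H).filter fun y => s(x, y) ∉ F).card = (fresh x H).card - degF F x := by
  have := card_filter_add_card_filter_not (s := fresh x H) (fun y => s(x, y) ∈ F)
  rw [filter_fresh_eq hF hD] at this
  unfold degF
  omega

theorem eff_greedy {x y : Fin n} {H : Finset (Sym2 (Fin n))} (h : y ∈ fresh x H) (v : Fin n) :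
    eff y (insert s(x, y) H) v = if v = x then (fresh x H).card - 1 else eff x H v := by
  have hyx : y ≠ x := (mem_fresh.1 h).1
  unfold eff
  by_cases hvx : v = x
  · subst hvx
    rw [fresh_insert_left, card_erase_of_mem h, if_neg hyx.symm, if_pos rfl, add_zero]
  · rw [if_neg hvx, if_neg hvx]
    by_cases hvy : v = y
    · subst hvy
      rw [fresh_insert_right, card_erase_of_mem (mem_fresh_symm h), if_pos rfl]
      have : 0 < (fresh v H).card := card_pos.2 ⟨x, mem_fresh_symm h⟩
      omega
    · rw [fresh_insert_other H hvx hvy, if_neg hvy]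

theorem Pop_mart_greedy {F : Finset (Sym2 (Fin n))} {j : Fin n → ℕ} (hV : Valid F j)
    {x : Fin n} {H : Finset (Sym2 (Fin n))} (h : (fresh x H).Nonempty) :
    Pop (mart F j) x H = mart F j x H := by
  unfold Pop
  rw [opts, if_pos h]
  have hd : 0 < (fresh x H).card := card_pos.2 h
  have hd' : ((fresh x H).card : ℝ) ≠ 0 := by exact_mod_cast hd.ne'
  rw [div_eq_iff hd']
  by_cases hD : Disjoint F H
  · set R : ℝ := ∏ v ∈ univ.erase x, phi (eff x H v) (j v) with hR
    have h1 : ∀ y ∈ fresh x H, mart F j y (insert s(x, y) H) =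
        if s(x, y) ∉ F then phi ((fresh x H).card - 1) (j x) * R else 0 := by
      intro y hy
      unfold mart
      by_cases hm : s(x, y) ∈ F
      · rw [if_neg (fun h' => disjoint_left.1 h' hm (mem_insert_self _ _)), if_neg (by simpa)]
      · rw [if_pos (by simp [disjoint_insert_right, hm, hD]), if_pos hm,
          ← mul_prod_erase univ _ (mem_univ x), eff_greedy hy, if_pos rfl]
        congr 1
        refine prod_congr rfl fun v hv => ?_
        rw [eff_greedy hy, if_neg (mem_erase.1 hv).1]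
    rw [sum_congr rfl h1, ← sum_filter, sum_const, nsmul_eq_mul, card_fresh_notMem hV.1 hD,
      hV.2 x, ← mul_assoc, phi_shift hd (hV.2 x ▸ degF_le_fresh hV.1 hD x), mart, if_pos hD,
      ← mul_prod_erase univ _ (mem_univ x), eff, if_pos rfl]
    ring
  · rw [mart, if_neg hD, zero_mul]
    refine sum_eq_zero fun y _ => ?_
    rw [mart, if_neg]
    exact fun h' => hD (h'.mono_right (subset_insert _ _))

theorem mart_of_even (F : Finset (Sym2 (Fin n))) (j : Fin n → ℕ) {y : Fin n}
    {H : Finset (Sym2 (Fin n))} (hy : Even (fresh y H).card) :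
    mart F j y H = if j y = 0 then mart0 F j H else 0 := by
  unfold mart mart0
  by_cases hD : Disjoint F H
  · rw [if_pos hD, if_pos hD]
    split_ifs with h0
    · refine prod_congr rfl fun v _ => ?_
      unfold eff
      by_cases hv : v = y
      · subst hv; simp [h0]
      · simp [hv]
    · refine prod_eq_zero (mem_univ y) (phi_odd ?_ h0)
      unfold eff
      rw [if_pos rfl, Nat.even_add_one]
      exact not_not.2 hy
  · simp [hD]

/-- support of a multiplicity function -/
def supp (j : Fin n → ℕ) : Finset (Fin n) := univ.filter fun v => j v ≠ 0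

theorem mart_stuck {F : Finset (Sym2 (Fin n))} {j : Fin n → ℕ} (hV : Valid F j)
    {x : Fin n} {H : Finset (Sym2 (Fin n))} (h : ¬ (fresh x H).Nonempty) :
    mart F j x H = mart0 F j H := by
  have h0 : (fresh x H).card = 0 := by rw [not_nonempty_iff_eq_empty.1 h, card_empty]
  rw [mart_of_even F j (by rw [h0]; exact Even.zero)]
  split_ifs with hj
  · rfl
  · rw [mart0, if_neg]
    intro hD
    have := degF_le_fresh hV.1 hD x
    rw [hV.2 x] at this
    omega

theorem card_erase_real (hn : 2 ≤ n) (x : Fin n) :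
    (((univ : Finset (Fin n)).erase x).card : ℝ) = (n : ℝ) - 1 := by
  rw [card_erase_of_mem (mem_univ _), card_univ, Fintype.card_fin, Nat.cast_sub (by omega)]
  simp

theorem Pop_mart_stuck (hn : 2 ≤ n) {F : Finset (Sym2 (Fin n))} {j : Fin n → ℕ} (hV : Valid F j)
    {x : Fin n} {H : Finset (Sym2 (Fin n))} (h : ¬ (fresh x H).Nonempty)
    (hE : ∀ v, Even (fresh v H).card) :
    Pop (mart F j) x H = mart F j x H - (supp j).card * mart0 F j H / ((n : ℝ) - 1) := by
  have hn1 : (n : ℝ) - 1 ≠ 0 := by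
    have : (2 : ℝ) ≤ n := by exact_mod_cast hn
    linarith
  rw [mart_stuck hV h]
  unfold Pop
  rw [opts, if_neg h, card_erase_real hn, div_eq_iff hn1]
  have h1 : ∀ y ∈ univ.erase x, mart F j y (insert s(x, y) H) =
      mart0 F j H - if y ∈ supp j then mart0 F j H else 0 := by
    intro y hy
    rw [insert_eq_of_stuck h (mem_erase.1 hy).1, mart_of_even F j (hE y)]
    by_cases h0 : j y = 0 <;> simp [supp, h0]
  rw [sum_congr rfl h1, sum_sub_distrib, sum_const, nsmul_eq_mul, card_erase_real hn,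
    ← sum_filter, sum_const, nsmul_eq_mul]
  by_cases hD : Disjoint F H
  · have hsub : supp j ⊆ univ.erase x := by
      intro v hv
      refine mem_erase.2 ⟨fun e => ?_, mem_univ _⟩
      subst e
      have h2 := degF_le_fresh hV.1 hD v
      rw [hV.2 v, not_nonempty_iff_eq_empty.1 h, card_empty] at h2
      have := (mem_filter.1 hv).2
      omega
    rw [filter_mem_eq_inter, inter_eq_right.2 hsub]
    field_simp
  · rw [mart0, if_neg hD]; simp

theorem Pop_sum {ι : Type} (s : Finset ι) (f : ι → Fin n → Finset (Sym2 (Fin n)) → ℝ)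
    (x : Fin n) (H : Finset (Sym2 (Fin n))) :
    Pop (fun x H => ∑ i ∈ s, f i x H) x H = ∑ i ∈ s, Pop (f i) x H := by
  unfold Pop
  rw [sum_comm, sum_div]

theorem Pop_mul (c : ℝ) (f : Fin n → Finset (Sym2 (Fin n)) → ℝ)
    (x : Fin n) (H : Finset (Sym2 (Fin n))) :
    Pop (fun x H => c * f x H) x H = c * Pop f x H := by
  unfold Pop
  rw [← mul_sum, mul_div_assoc]

theorem Pop_add (f g : Fin n → Finset (Sym2 (Fin n)) → ℝ)
    (x : Fin n) (H : Finset (Sym2 (Fin n))) :
    Pop (fun x H => f x H + g x H) x H = Pop f x H + Pop g x H := by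
  unfold Pop
  rw [sum_add_distrib, add_div]

theorem Pop_unused_greedy (hn : 2 ≤ n) {x : Fin n} {H : Finset (Sym2 (Fin n))}
    (h : (fresh x H).Nonempty) :
    Pop (fun _ H => ((unused H).card : ℝ)) x H = (unused H).card - 1 := by
  apply Pop_const_on (hn := hn)
  intro y hy
  rw [opts, if_pos h] at hy
  rw [unused_insert, card_erase_of_mem (mk_mem_unused.2 hy)]
  have : 0 < (unused H).card := card_pos.2 ⟨_, mk_mem_unused.2 hy⟩
  rw [Nat.cast_sub this]
  simp

theorem Pop_unused_stuck (hn : 2 ≤ n) {x : Fin n} {H : Finset (Sym2 (Fin n))}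
    (h : ¬ (fresh x H).Nonempty) :
    Pop (fun _ H => ((unused H).card : ℝ)) x H = (unused H).card := by
  apply Pop_const_on (hn := hn)
  intro y hy
  rw [insert_eq_of_stuck h (ne_of_mem_opts hy)]

theorem cst_greedy {x : Fin n} {H : Finset (Sym2 (Fin n))} (h : (fresh x H).Nonempty) :
    cst x H = 1 := by
  obtain ⟨y, hy⟩ := h
  exact if_pos ⟨_, mk_mem_unused.2 hy⟩

/-- the invariant for odd `n` -/
def InvO (x : Fin n) (H : Finset (Sym2 (Fin n))) : Prop :=
  (∀ e ∈ H, ¬ e.IsDiag) ∧ (parSet x H).card = 1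

theorem even_of_stuck {x : Fin n} {H : Finset (Sym2 (Fin n))} (hI : InvO x H)
    (h : ¬ (fresh x H).Nonempty) : oddSet H = ∅ := by
  have hx := notMem_oddSet_of_stuck h
  have := hI.2
  rw [parSet_of_notMem hx, card_insert_of_notMem hx] at this
  exact card_eq_zero.1 (by omega)

theorem even_of_oddSet {H : Finset (Sym2 (Fin n))} (h : oddSet H = ∅) (v : Fin n) :
    Even (fresh v H).card := by
  rw [← Nat.not_odd_iff_even]
  intro ho
  have : v ∈ oddSet H := mem_filter.2 ⟨mem_univ _, ho⟩
  rw [h] at this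
  exact notMem_empty _ this

theorem even_fresh_empty (ho : Odd n) (v : Fin n) :
    Even (fresh v (∅ : Finset (Sym2 (Fin n)))).card := by
  rw [card_fresh_empty]
  obtain ⟨k, hk⟩ := ho
  exact ⟨k, by omega⟩

theorem InvO_zero (ho : Odd n) (v : Fin n) : InvO v ∅ := by
  refine ⟨by simp, ?_⟩
  have hO : oddSet (∅ : Finset (Sym2 (Fin n))) = ∅ := by
    ext w
    simp only [oddSet, mem_filter, mem_univ, true_and, notMem_empty, iff_false]
    exact Nat.not_odd_iff_even.2 (even_fresh_empty ho w)
  rw [parSet_of_notMem (by simp [hO]), hO]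
  simp

theorem InvO_step {x : Fin n} {H : Finset (Sym2 (Fin n))} (hI : InvO x H) {y : Fin n}
    (hy : y ∈ opts x H) : InvO y (insert s(x, y) H) := by
  refine ⟨fun e he => ?_, ?_⟩
  · rcases mem_insert.1 he with rfl | he
    · simpa using (ne_of_mem_opts hy).symm
    · exact hI.1 e he
  · by_cases h : (fresh x H).Nonempty
    · rw [opts, if_pos h] at hy
      rw [parSet_greedy hy, hI.2]
    · have hO := even_of_stuck hI h
      rw [insert_eq_of_stuck h (ne_of_mem_opts hy), parSet_of_notMem (by simp [hO]), hO]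
      simp

end Pool.Agent.MP_3173ec_pr

end

-- part MP_3173ec_pr.OddTrail
section

/-!
Trails as vertex lists and the Kraft identity for transition weights.
-/

open Finset

namespace Pool.Agent.MP_3173ec_pr

variable {n : ℕ}

/-- all lists of a given length -/
def lists (n : ℕ) : ℕ → Finset (List (Fin n))
  | 0 => {[]}
  | k + 1 => (univ ×ˢ lists n k).map ⟨fun p => p.1 :: p.2, fun p q h => by
      simp only [List.cons.injEq] at h
      exact Prod.ext h.1 h.2⟩

theorem sum_lists_succ (k : ℕ) (f : List (Fin n) → ℝ) :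
    ∑ l ∈ lists n (k + 1), f l = ∑ l ∈ lists n k, ∑ y, f (y :: l) := by
  rw [lists, sum_map, sum_product_right]
  rfl

theorem length_of_mem_lists {k : ℕ} {l : List (Fin n)} (h : l ∈ lists n k) : l.length = k := by
  induction k generalizing l with
  | zero => simp only [lists, mem_singleton] at h; simp [h]
  | succ k ih =>
    rw [lists, mem_map] at h
    obtain ⟨p, hp, rfl⟩ := h
    simp [ih (mem_product.1 hp).2]

/-- current end of the trail -/
def hd (a : Fin n) : List (Fin n) → Fin n
  | [] => a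
  | y :: _ => y

/-- edges of the trail from `a` through the reversed list -/
def edges (a : Fin n) : List (Fin n) → Finset (Sym2 (Fin n))
  | [] => ∅
  | y :: l => insert s(hd a l, y) (edges a l)

/-- the edges are distinct and not loops -/
def IsTr (a : Fin n) : List (Fin n) → Prop
  | [] => True
  | y :: l => y ≠ hd a l ∧ s(hd a l, y) ∉ edges a l ∧ IsTr a l

theorem hd_cons (a y : Fin n) (l : List (Fin n)) : hd a (y :: l) = y := rfl

theorem edges_nondiag {a : Fin n} {l : List (Fin n)} (h : IsTr a l) :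
    ∀ e ∈ edges a l, ¬ e.IsDiag := by
  induction l with
  | nil => simp [edges]
  | cons y l ih =>
    intro e he
    rcases mem_insert.1 he with rfl | he
    · simpa using h.1.symm
    · exact ih h.2.2 e he

theorem card_edges {a : Fin n} {l : List (Fin n)} (h : IsTr a l) :
    (edges a l).card = l.length := by
  induction l with
  | nil => simp [edges]
  | cons y l ih => rw [edges, card_insert_of_notMem h.2.1, ih h.2.2, List.length_cons]

theorem degF_insert {F : Finset (Sym2 (Fin n))} {x y : Fin n} (hxy : y ≠ x) (hF : s(x, y) ∉ F)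
    (v : Fin n) : degF (insert s(x, y) F) v =
      degF F v + (if v = x then 1 else 0) + (if v = y then 1 else 0) := by
  unfold degF
  by_cases hvx : v = x
  · subst hvx
    have : (univ.filter fun z => s(v, z) ∈ insert s(v, y) F) =
        insert y (univ.filter fun z => s(v, z) ∈ F) := by
      ext z
      simp only [mem_filter, mem_univ, true_and, mem_insert, Sym2.eq_iff]
      aesop
    rw [this, card_insert_of_notMem (by simpa using hF), if_pos rfl, if_neg hxy.symm]
  · by_cases hvy : v = y
    · subst hvy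
      have : (univ.filter fun z => s(v, z) ∈ insert s(x, v) F) =
          insert x (univ.filter fun z => s(v, z) ∈ F) := by
        ext z
        simp only [mem_filter, mem_univ, true_and, mem_insert, Sym2.eq_iff]
        aesop
      rw [this, card_insert_of_notMem (by rw [Sym2.eq_swap] at hF; simpa using hF), if_pos rfl,
        if_neg hvx]
    · have : (univ.filter fun z => s(v, z) ∈ insert s(x, y) F) =
          (univ.filter fun z => s(v, z) ∈ F) := by
        ext z
        simp only [mem_filter, mem_univ, true_and, mem_insert, Sym2.eq_iff]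
        aesop
      rw [this, if_neg hvx, if_neg hvy]
      rfl

theorem degF_edges {a : Fin n} {l : List (Fin n)} (h : IsTr a l) (v : Fin n) :
    degF (edges a l) v + (if v = hd a l then 1 else 0) =
      2 * l.count v + (if v = a then 1 else 0) := by
  induction l with
  | nil => simp [edges, degF, hd]
  | cons y l ih =>
    have ih := ih h.2.2
    rw [edges, degF_insert h.1 h.2.1, List.count_cons]
    simp only [hd_cons, beq_iff_eq]
    by_cases hvy : v = y
    · subst hvy
      simp only [if_true] at ih ⊢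
      omega
    · simp only [if_neg hvy, if_neg (Ne.symm hvy)]
      omega

theorem valid_closed {a : Fin n} {l : List (Fin n)} (h : IsTr a l) (hc : hd a l = a) :
    Valid (edges a l) (fun v => l.count v) := by
  refine ⟨edges_nondiag h, fun v => ?_⟩
  have := degF_edges h v
  rw [hc] at this
  simpa using this

theorem hd_mem (a : Fin n) (l : List (Fin n)) : hd a l ∈ l ∨ hd a l = a := by
  cases l <;> simp [hd]

theorem mem_of_mem_edges {a : Fin n} {l : List (Fin n)} {v y : Fin n} (h : s(v, y) ∈ edges a l) :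
    y ∈ l ∨ y = a := by
  induction l with
  | nil => simp [edges] at h
  | cons z l ih =>
    rcases mem_insert.1 h with h | h
    · rcases Sym2.eq_iff.1 h with ⟨_, rfl⟩ | ⟨_, rfl⟩
      · simp
      · rcases hd_mem a l with h | h
        · simp [h]
        · simp [h]
    · rcases ih h with h | h
      · simp [h]
      · simp [h]

theorem two_count_le {a : Fin n} {l : List (Fin n)} (h : IsTr (a := a) (a :: l)) (v : Fin n) :
    2 * (a :: l).count v ≤ (a :: l).toFinset.card := by
  have h1 := (valid_closed h rfl).2 v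
  simp only at h1
  rw [← h1]
  refine card_le_card fun y hy => ?_
  rcases mem_of_mem_edges (mem_filter.1 hy).2 with h | h
  · exact List.mem_toFinset.2 h
  · simp [h]

theorem length_le_sq {a : Fin n} {l : List (Fin n)} (h : IsTr (a := a) (a :: l)) :
    (a :: l).length ≤ (a :: l).toFinset.card ^ 2 := by
  rw [← List.sum_toFinset_count_eq_length, sq]
  refine (sum_le_card_nsmul _ _ (a :: l).toFinset.card fun v _ => ?_).trans (by simp)
  have := two_count_le h v
  omega

theorem supp_count (l : List (Fin n)) : supp (fun v => l.count v) = l.toFinset := by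
  ext v
  simp [supp, List.count_eq_zero]

/-- trail avoiding the used edges -/
def TrH (H : Finset (Sym2 (Fin n))) (a : Fin n) (l : List (Fin n)) : Prop :=
  IsTr a l ∧ Disjoint (edges a l) H

theorem TrH_cons {H : Finset (Sym2 (Fin n))} {a y : Fin n} {l : List (Fin n)} :
    TrH H a (y :: l) ↔ TrH H a l ∧ y ∈ fresh (hd a l) H ∧ s(hd a l, y) ∉ edges a l := by
  simp only [TrH, IsTr, edges, disjoint_insert_left, mem_fresh]
  tauto

theorem length_le_unused {H : Finset (Sym2 (Fin n))} {a : Fin n} {l : List (Fin n)}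
    (h : TrH H a l) : l.length ≤ (unused H).card := by
  rw [← card_edges h.1]
  exact card_le_card fun e he =>
    mem_unused.2 ⟨edges_nondiag h.1 e he, disjoint_left.1 h.2 he⟩

/-- weight of a list of visits -/
noncomputable def W (H : Finset (Sym2 (Fin n))) (l : List (Fin n)) : ℝ :=
  ∏ v, phi (fresh v H).card (l.count v)

theorem W_nonneg (H : Finset (Sym2 (Fin n))) (l : List (Fin n)) : 0 ≤ W H l :=
  prod_nonneg fun _ _ => phi_nonneg _ _

theorem W_nil (H : Finset (Sym2 (Fin n))) : W H [] = 1 := by simp [W]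

theorem W_cons (H : Finset (Sym2 (Fin n))) (y : Fin n) (l : List (Fin n)) :
    W H (y :: l) = W H l * af (fresh y H).card (l.count y) := by
  unfold W
  rw [← mul_prod_erase univ _ (mem_univ y), ← mul_prod_erase univ _ (mem_univ y),
    List.count_cons_self, phi_succ]
  have : ∏ v ∈ univ.erase y, phi (fresh v H).card ((y :: l).count v) =
      ∏ v ∈ univ.erase y, phi (fresh v H).card (l.count v) := by
    refine prod_congr rfl fun v hv => ?_
    rw [List.count_cons_of_ne (mem_erase.1 hv).1.symm]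
  rw [this]
  ring

open Classical in
/-- total weight of open trails with `k` edges -/
noncomputable def AA (H : Finset (Sym2 (Fin n))) (a : Fin n) (k : ℕ) : ℝ :=
  ∑ l ∈ lists n k, if TrH H a l then W H l.tail else 0

open Classical in
/-- total weight of closed trails with `k` edges -/
noncomputable def BB (H : Finset (Sym2 (Fin n))) (a : Fin n) (k : ℕ) : ℝ :=
  ∑ l ∈ lists n k, if TrH H a l ∧ hd a l = a then W H l else 0

theorem AA_nonneg (H : Finset (Sym2 (Fin n))) (a : Fin n) (k : ℕ) : 0 ≤ AA H a k :=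
  sum_nonneg fun l _ => by
    split_ifs
    · exact W_nonneg _ _
    · exact le_rfl

theorem BB_nonneg (H : Finset (Sym2 (Fin n))) (a : Fin n) (k : ℕ) : 0 ≤ BB H a k :=
  sum_nonneg fun l _ => by
    split_ifs
    · exact W_nonneg _ _
    · exact le_rfl

open Classical in
theorem sum_ext (H : Finset (Sym2 (Fin n))) (a : Fin n) (l : List (Fin n)) (c : ℝ) :
    (∑ y, if TrH H a (y :: l) then c else 0) =
      if TrH H a l then
        (((fresh (hd a l) H).card - degF (edges a l) (hd a l) : ℕ) : ℝ) * c else 0 := by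
  by_cases h : TrH H a l
  · rw [if_pos h, ← card_fresh_notMem (edges_nondiag h.1) h.2, ← sum_filter, sum_const,
      nsmul_eq_mul]
    congr 3
    ext y
    simp [TrH_cons, h]
  · rw [if_neg h]
    exact sum_eq_zero fun y _ => if_neg fun h' => h (TrH_cons.1 h').1

theorem AA_one (H : Finset (Sym2 (Fin n))) (a : Fin n) : AA H a 1 = (fresh a H).card := by
  unfold AA
  rw [sum_lists_succ]
  simp only [lists, sum_singleton, List.tail_cons]
  rw [sum_ext, if_pos ⟨trivial, by simp [edges]⟩, W_nil]
  simp [hd, edges, degF]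

theorem kraft {H : Finset (Sym2 (Fin n))} (hE : ∀ v, Even (fresh v H).card) (a : Fin n) (k : ℕ) :
    AA H a (k + 1) = AA H a (k + 2) + BB H a (k + 1) := by
  unfold AA BB
  rw [sum_lists_succ (k + 1), ← sum_add_distrib]
  refine sum_congr rfl fun l hl => ?_
  have hlen := length_of_mem_lists hl
  obtain ⟨x, l, rfl⟩ : ∃ x l', l = x :: l' := by
    cases l with
    | nil => simp at hlen
    | cons x l => exact ⟨x, l, rfl⟩
  simp only [List.tail_cons]
  rw [sum_ext]
  by_cases h : TrH H a (x :: l)
  · simp only [h, if_true, true_and]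
    have h1 := degF_edges h.1 x
    have h2 := degF_le_fresh (edges_nondiag h.1) h.2 x
    have h3 := hE x
    simp only [hd, if_true, List.count_cons_self] at h1 ⊢
    rw [W_cons, af, if_pos h3]
    have hpos : (fresh x H).card - 1 - 2 * l.count x ≠ 0 := by
      obtain ⟨m, hm⟩ := h3
      split_ifs at h1 <;> omega
    have hpos' : (((fresh x H).card - 1 - 2 * l.count x : ℕ) : ℝ) ≠ 0 := by exact_mod_cast hpos
    by_cases hxa : x = a
    · rw [if_pos hxa] at h1 ⊢
      have e : (fresh x H).card - 1 - 2 * l.count x =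
          ((fresh x H).card - degF (edges a (x :: l)) x) + 1 := by omega
      rw [e] at hpos' ⊢
      push_cast at hpos' ⊢
      field_simp
    · rw [if_neg hxa] at h1 ⊢
      have e : (fresh x H).card - degF (edges a (x :: l)) x =
          (fresh x H).card - 1 - 2 * l.count x := by omega
      rw [e]
      field_simp
      simp
  · simp [h]

theorem kraft_sum {H : Finset (Sym2 (Fin n))} (hE : ∀ v, Even (fresh v H).card) (a : Fin n)
    (K : ℕ) : ∑ k ∈ range K, BB H a (k + 1) + AA H a (K + 1) = (fresh a H).card := by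
  induction K with
  | zero => simp [AA_one]
  | succ K ih => rw [sum_range_succ, ← ih, kraft hE a K]; ring

theorem AA_le {H : Finset (Sym2 (Fin n))} (hE : ∀ v, Even (fresh v H).card) (a : Fin n)
    (K : ℕ) : AA H a (K + 1) ≤ (fresh a H).card := by
  rw [← kraft_sum hE a K]
  have : 0 ≤ ∑ k ∈ range K, BB H a (k + 1) := sum_nonneg fun k _ => BB_nonneg _ _ _
  linarith

theorem AA_eq_zero {H : Finset (Sym2 (Fin n))} (a : Fin n) {k : ℕ} (hk : (unused H).card < k) :
    AA H a k = 0 := by
  refine sum_eq_zero fun l hl => if_neg fun h => ?_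
  have := length_le_unused h
  rw [length_of_mem_lists hl] at this
  omega

theorem BB_eq_zero {H : Finset (Sym2 (Fin n))} (a : Fin n) {k : ℕ} (hk : (unused H).card < k) :
    BB H a k = 0 := by
  refine sum_eq_zero fun l hl => if_neg fun h => ?_
  have := length_le_unused h.1
  rw [length_of_mem_lists hl] at this
  omega

theorem card_unused_le (H : Finset (Sym2 (Fin n))) :
    (unused H).card ≤ ∑ a, (fresh a H).card := by
  calc (unused H).card ≤ (univ.biUnion fun a => (fresh a H).image fun y => s(a, y)).card := by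
        refine card_le_card fun e he => ?_
        induction e using Sym2.ind with
        | _ a b => exact mem_biUnion.2 ⟨a, mem_univ _, mem_image.2 ⟨b, mk_mem_unused.1 he, rfl⟩⟩
    _ ≤ _ := card_biUnion_le.trans (sum_le_sum fun a _ => card_image_le)

theorem one_le_sum_BB {H : Finset (Sym2 (Fin n))} (hE : ∀ v, Even (fresh v H).card)
    (hU : (unused H).Nonempty) {K : ℕ} (hK : (unused H).card ≤ K) :
    1 ≤ ∑ a, ∑ k ∈ range K, BB H a (k + 1) / ((k : ℝ) + 1) := by
  have hu : (0 : ℝ) < (unused H).card := by exact_mod_cast card_pos.2 hU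
  have h1 : ∀ a, ((fresh a H).card : ℝ) / (unused H).card ≤
      ∑ k ∈ range K, BB H a (k + 1) / ((k : ℝ) + 1) := by
    intro a
    rw [← kraft_sum hE a K, AA_eq_zero a (by omega), add_zero, sum_div]
    refine sum_le_sum fun k _ => ?_
    by_cases hk : (unused H).card < k + 1
    · rw [BB_eq_zero a hk]; simp
    · refine div_le_div_of_nonneg_left (BB_nonneg _ _ _) (by positivity) ?_
      exact_mod_cast not_lt.1 hk
  refine le_trans ?_ (sum_le_sum fun a _ => h1 a)
  rw [← sum_div, le_div_iff₀ hu, one_mul]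
  exact_mod_cast card_unused_le H

end Pool.Agent.MP_3173ec_pr

end

-- part MP_3173ec_pr.OddUpper
section

/-!
The linear upper bound on the overhead for odd `n`.
-/

open Finset

namespace Pool.Agent.MP_3173ec_pr

variable {n : ℕ}

open Classical in
/-- weight of a closed trail -/
noncomputable def wU (a : Fin n) (k : ℕ) (l : List (Fin n)) : ℝ :=
  if IsTr a l ∧ hd a l = a then 1 / (((k : ℝ) + 1) * l.toFinset.card) else 0

theorem wU_nonneg (a : Fin n) (k : ℕ) (l : List (Fin n)) : 0 ≤ wU a k l := by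
  unfold wU; split_ifs <;> positivity

/-- the closed-trail potential -/
noncomputable def QU (K : ℕ) (x : Fin n) (H : Finset (Sym2 (Fin n))) : ℝ :=
  ∑ a, ∑ k ∈ range K, ∑ l ∈ lists n (k + 1),
    wU a k l * mart (edges a l) (fun v => l.count v) x H

theorem QU_nonneg (K : ℕ) (x : Fin n) (H : Finset (Sym2 (Fin n))) : 0 ≤ QU K x H :=
  sum_nonneg fun _ _ => sum_nonneg fun _ _ => sum_nonneg fun _ _ =>
    mul_nonneg (wU_nonneg _ _ _) (mart_nonneg _ _ _ _)

theorem Pop_QU (K : ℕ) (x : Fin n) (H : Finset (Sym2 (Fin n))) :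
    Pop (QU K) x H = ∑ a, ∑ k ∈ range K, ∑ l ∈ lists n (k + 1),
      wU a k l * Pop (mart (edges a l) (fun v => l.count v)) x H := by
  unfold QU
  rw [Pop_sum]
  refine sum_congr rfl fun a _ => ?_
  rw [Pop_sum]
  refine sum_congr rfl fun k _ => ?_
  rw [Pop_sum]
  refine sum_congr rfl fun l _ => ?_
  rw [Pop_mul]

theorem Pop_QU_greedy (K : ℕ) {x : Fin n} {H : Finset (Sym2 (Fin n))}
    (h : (fresh x H).Nonempty) : Pop (QU K) x H = QU K x H := by
  rw [Pop_QU, QU]
  refine sum_congr rfl fun a _ => sum_congr rfl fun k _ => sum_congr rfl fun l _ => ?_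
  unfold wU
  split_ifs with hc
  · rw [Pop_mart_greedy (valid_closed hc.1 hc.2) h]
  · simp

open Classical in
theorem mart0_edges (H : Finset (Sym2 (Fin n))) (a : Fin n) (l : List (Fin n)) :
    mart0 (edges a l) (fun v => l.count v) H = if Disjoint (edges a l) H then W H l else 0 := rfl

theorem Pop_QU_stuck (hn : 2 ≤ n) (K : ℕ) {x : Fin n} {H : Finset (Sym2 (Fin n))}
    (h : ¬ (fresh x H).Nonempty) (hE : ∀ v, Even (fresh v H).card) :
    Pop (QU K) x H = QU K x H -
      (∑ a, ∑ k ∈ range K, BB H a (k + 1) / ((k : ℝ) + 1)) / ((n : ℝ) - 1) := by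
  rw [Pop_QU, QU, sum_div, ← sum_sub_distrib]
  refine sum_congr rfl fun a _ => ?_
  rw [sum_div, ← sum_sub_distrib]
  refine sum_congr rfl fun k _ => ?_
  rw [BB, sum_div, sum_div, ← sum_sub_distrib]
  refine sum_congr rfl fun l hl => ?_
  have hlen := length_of_mem_lists hl
  unfold wU
  by_cases hc : IsTr a l ∧ hd a l = a
  · rw [if_pos hc, Pop_mart_stuck hn (valid_closed hc.1 hc.2) h hE, supp_count, mart0_edges]
    have hne : (l.toFinset.card : ℝ) ≠ 0 := by
      have : l.toFinset.Nonempty := by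
        cases l with
        | nil => simp at hlen
        | cons y l => exact ⟨y, by simp⟩
      exact_mod_cast (card_pos.2 this).ne'
    by_cases hD : Disjoint (edges a l) H
    · rw [if_pos hD, if_pos ⟨⟨hc.1, hD⟩, hc.2⟩]
      field_simp
    · rw [if_neg hD, if_neg (fun h' => hD h'.1.2)]
      simp
  · rw [if_neg hc, if_neg (fun h' => hc ⟨h'.1.1, h'.2⟩)]
    simp

open Classical in
/-- closed trails on few vertices -/
noncomputable def BS (a : Fin n) (k : ℕ) : ℝ :=
  ∑ l ∈ lists n k, if (TrH ∅ a l ∧ hd a l = a) ∧ 4 * l.toFinset.card ≤ n then W ∅ l else 0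

theorem af_small {c : ℕ} (hc : 4 * (2 * (c + 1)) ≤ n) : af (n - 1) c ≤ 2 / n := by
  unfold af
  have hn : (0 : ℝ) < n := by
    have : 0 < n := by omega
    exact_mod_cast this
  split_ifs
  · have h1 : n ≤ 2 * (n - 1 - 1 - 2 * c) := by omega
    have h2 : (n : ℝ) ≤ 2 * ((n - 1 - 1 - 2 * c : ℕ) : ℝ) := by exact_mod_cast h1
    rw [div_le_div_iff₀ (by linarith) hn]
    linarith
  · positivity

theorem BS_le (ho : Odd n) (a : Fin n) (k : ℕ) : BS a (k + 1) ≤ 4 / n := by
  have hn : (0 : ℝ) < n := by exact_mod_cast ho.pos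
  unfold BS
  rw [sum_lists_succ]
  cases k with
  | zero =>
    simp only [lists, sum_singleton]
    rw [sum_eq_zero]
    · positivity
    · intro y _
      refine if_neg fun h => h.1.1.1.1 h.1.2
  | succ k =>
    have hA := AA_le (even_fresh_empty ho) a k
    rw [card_fresh_empty] at hA
    have hA' : AA ∅ a (k + 1) ≤ n := hA.trans (by exact_mod_cast Nat.sub_le n 1)
    calc _ ≤ (4 / (n : ℝ) ^ 2) * AA ∅ a (k + 1) := by
          rw [AA, mul_sum]
          refine sum_le_sum fun l hl => ?_
          have hlen := length_of_mem_lists hl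
          obtain ⟨x, l, rfl⟩ : ∃ x l', l = x :: l' := by
            cases l with
            | nil => simp at hlen
            | cons x l => exact ⟨x, l, rfl⟩
          rw [sum_eq_single a (fun y _ hy => if_neg fun h => hy h.1.2) (by simp)]
          split_ifs with h1 h2
          · rw [W_cons, W_cons, card_fresh_empty, card_fresh_empty, List.tail_cons]
            have hx := two_count_le h1.1.1.1 x
            have ha := two_count_le h1.1.1.1 a
            have hs := h1.2
            have e1 : af (n - 1) (l.count x) ≤ 2 / n := by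
              apply af_small
              have : l.count x + 1 ≤ (a :: x :: l).count x := by
                rw [List.count_cons, List.count_cons_self]; omega
              omega
            have e2 : af (n - 1) ((x :: l).count a) ≤ 2 / n := by
              apply af_small
              rw [List.count_cons_self] at ha
              omega
            have hW := W_nonneg ∅ l
            calc W ∅ l * af (n - 1) (l.count x) * af (n - 1) ((x :: l).count a)
                ≤ W ∅ l * (2 / n) * (2 / n) := by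
                  gcongr
                  exact af_nonneg _ _
              _ = _ := by ring
          · exact absurd (TrH_cons.1 h1.1.1).1 h2
          · exact mul_nonneg (by positivity) (W_nonneg _ _)
          · simp
      _ ≤ (4 / (n : ℝ) ^ 2) * n := by gcongr
      _ = 4 / n := by field_simp

theorem sum_inv_sqrt (K : ℕ) :
    ∑ k ∈ range K, 1 / (((k : ℝ) + 1) * √((k : ℝ) + 1)) ≤ 3 := by
  have key : ∀ K : ℕ, ∑ k ∈ range (K + 1), 1 / (((k : ℝ) + 1) * √((k : ℝ) + 1)) ≤
      3 - 2 / √((K : ℝ) + 1) := by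
    intro K
    induction K with
    | zero => norm_num
    | succ K ih =>
      rw [sum_range_succ]
      push_cast
      set s := √((K : ℝ) + 1) with hs
      set t := √((K : ℝ) + 1 + 1) with ht
      have hs0 : 0 < s := Real.sqrt_pos.2 (by positivity)
      have ht0 : 0 < t := Real.sqrt_pos.2 (by positivity)
      have hs2 : s ^ 2 = (K : ℝ) + 1 := Real.sq_sqrt (by positivity)
      have ht2 : t ^ 2 = (K : ℝ) + 1 + 1 := Real.sq_sqrt (by positivity)
      have hst : s ≤ t := Real.sqrt_le_sqrt (by linarith)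
      have h1 : 1 / (((K : ℝ) + 1 + 1) * t) ≤ 2 / s - 2 / t := by
        rw [← ht2, div_sub_div _ _ hs0.ne' ht0.ne', div_le_div_iff₀ (by positivity) (by positivity)]
        have h2 : (t - s) * (t + s) = 1 := by nlinarith
        have h3 : 0 ≤ t - s := by linarith
        have h4 : s * t * (t + s) ≤ 2 * (t ^ 2 * t) := by
          have : s * t ≤ t ^ 2 := by nlinarith
          have : s * t * (t + s) ≤ t ^ 2 * (t + t) := by gcongr
          linarith
        calc 1 * (s * t) = (t - s) * (s * t * (t + s)) := by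
              rw [← h2]; ring
          _ ≤ (t - s) * (2 * (t ^ 2 * t)) := by gcongr
          _ = _ := by ring
      linarith
  cases K with
  | zero => simp
  | succ K =>
    have : 0 ≤ 2 / √((K : ℝ) + 1) := by positivity
    linarith [key K]

theorem QU_init (ho : Odd n) (K : ℕ) (v : Fin n) : QU K v ∅ ≤ 28 := by
  have hn : (0 : ℝ) < n := by exact_mod_cast ho.pos
  have hE := even_fresh_empty ho
  have h1 : QU K v ∅ ≤ ∑ a : Fin n, ∑ k ∈ range K, (16 / (n : ℝ) ^ 2 * BB ∅ a (k + 1) +
      1 / (((k : ℝ) + 1) * √((k : ℝ) + 1)) * BS a (k + 1)) := by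
    refine sum_le_sum fun a _ => sum_le_sum fun k _ => ?_
    rw [BB, BS, mul_sum, mul_sum, ← sum_add_distrib]
    refine sum_le_sum fun l hl => ?_
    have hlen := length_of_mem_lists hl
    have hW := W_nonneg ∅ l
    unfold wU
    by_cases hc : IsTr a l ∧ hd a l = a
    · have hm : mart (edges a l) (fun v => l.count v) v ∅ ≤ W ∅ l := by
        rw [mart_of_even _ _ (hE v), mart0_edges, if_pos (disjoint_empty_right _)]
        split_ifs
        · exact le_rfl
        · exact hW
      have hc' : TrH ∅ a l ∧ hd a l = a := ⟨⟨hc.1, disjoint_empty_right _⟩, hc.2⟩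
      obtain ⟨l, rfl⟩ : ∃ l', l = a :: l' := by
        cases l with
        | nil => simp at hlen
        | cons x l => exact ⟨l, by rw [← hc.2]; rfl⟩
      have hsq := length_le_sq hc.1
      have hle := List.toFinset_card_le (a :: l)
      rw [hlen] at hsq hle
      set m := (a :: l).toFinset.card with hm'
      have hm0 : 0 < m := card_pos.2 ⟨a, by simp⟩
      have hm0' : (0 : ℝ) < m := by exact_mod_cast hm0
      rw [if_pos hc, if_pos hc']
      refine (mul_le_mul_of_nonneg_left hm (by positivity)).trans ?_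
      by_cases hs : 4 * m ≤ n
      · rw [if_pos ⟨hc', hs⟩]
        have h2 : √((k : ℝ) + 1) ≤ m := by
          rw [Real.sqrt_le_left hm0'.le]
          exact_mod_cast hsq
        have h3 : 0 < √((k : ℝ) + 1) := Real.sqrt_pos.2 (by positivity)
        have h4 : 1 / (((k : ℝ) + 1) * m) ≤ 1 / (((k : ℝ) + 1) * √((k : ℝ) + 1)) := by
          gcongr
        have h5 : 0 ≤ 16 / (n : ℝ) ^ 2 * W ∅ (a :: l) := by positivity
        nlinarith [mul_le_mul_of_nonneg_right h4 hW]
      · rw [if_neg (fun h => hs h.2), mul_zero, add_zero]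
        refine mul_le_mul_of_nonneg_right ?_ hW
        have h2 : (n : ℝ) ≤ 4 * m := by exact_mod_cast (not_le.1 hs).le
        have h3 : (m : ℝ) ≤ (k : ℝ) + 1 := by exact_mod_cast hle
        rw [div_le_div_iff₀ (by positivity) (by positivity)]
        nlinarith
    · rw [if_neg hc, if_neg (fun h' => hc ⟨h'.1.1, h'.2⟩),
        if_neg (fun h' => hc ⟨h'.1.1.1, h'.1.2⟩)]
      simp
  have h2 : ∀ a : Fin n, ∑ k ∈ range K, (16 / (n : ℝ) ^ 2 * BB ∅ a (k + 1) +
      1 / (((k : ℝ) + 1) * √((k : ℝ) + 1)) * BS a (k + 1)) ≤ (28 : ℝ) / n := by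
    intro a
    rw [sum_add_distrib, ← mul_sum]
    have h3 : ∑ k ∈ range K, BB ∅ a (k + 1) ≤ n := by
      have h4 := kraft_sum hE a K
      rw [card_fresh_empty] at h4
      have h5 : ((n - 1 : ℕ) : ℝ) ≤ n := by exact_mod_cast Nat.sub_le n 1
      linarith [AA_nonneg ∅ a (K + 1)]
    have h4 : ∑ k ∈ range K, 1 / (((k : ℝ) + 1) * √((k : ℝ) + 1)) * BS a (k + 1) ≤
        3 * (4 / n) := by
      calc _ ≤ ∑ k ∈ range K, 1 / (((k : ℝ) + 1) * √((k : ℝ) + 1)) * (4 / n) :=
            sum_le_sum fun k _ => mul_le_mul_of_nonneg_left (BS_le ho a k) (by positivity)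
        _ ≤ _ := by
            rw [← sum_mul]
            exact mul_le_mul_of_nonneg_right (sum_inv_sqrt K) (by positivity)
    calc _ ≤ 16 / (n : ℝ) ^ 2 * n + 3 * (4 / n) := by gcongr
      _ = 28 / n := by field_simp; norm_num
  refine h1.trans ((sum_le_sum fun a _ => h2 a).trans ?_)
  rw [sum_const, card_univ, Fintype.card_fin, nsmul_eq_mul]
  apply le_of_eq
  field_simp

/-- potential for the upper bound -/
noncomputable def potU (x : Fin n) (H : Finset (Sym2 (Fin n))) : ℝ :=
  (unused H).card + ((n : ℝ) - 1) * QU (n.choose 2) x H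

theorem potU_step (hn : 2 ≤ n) {x : Fin n} {H : Finset (Sym2 (Fin n))} (hI : InvO x H) :
    cst' x H + Pop potU x H ≤ potU x H := by
  have hn1 : (0 : ℝ) < (n : ℝ) - 1 := by
    have : (2 : ℝ) ≤ n := by exact_mod_cast hn
    linarith
  have hP : Pop potU x H = Pop (fun _ H => ((unused H).card : ℝ)) x H +
      ((n : ℝ) - 1) * Pop (QU (n.choose 2)) x H := by
    rw [← Pop_mul, ← Pop_add]; rfl
  rw [cst'_eq_cst hI.1, hP, potU]
  by_cases h : (fresh x H).Nonempty
  · rw [cst_greedy h, Pop_unused_greedy hn h, Pop_QU_greedy _ h]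
    linarith
  · have hE := even_of_oddSet (even_of_stuck hI h)
    rw [Pop_unused_stuck hn h, Pop_QU_stuck hn _ h hE, mul_sub, mul_div_cancel₀ _ hn1.ne']
    unfold cst
    split_ifs with hU
    · have hK : (unused H).card ≤ n.choose 2 := by
        rw [← card_unused_empty]
        exact card_le_card fun e he => mem_unused.2 ⟨(mem_unused.1 he).1, notMem_empty _⟩
      linarith [one_le_sum_BB hE hU hK]
    · have : 0 ≤ ∑ a, ∑ k ∈ range (n.choose 2), BB H a (k + 1) / ((k : ℝ) + 1) :=
        sum_nonneg fun a _ => sum_nonneg fun k _ => div_nonneg (BB_nonneg _ _ _) (by positivity)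
      linarith

theorem odd_upper (hn : 2 ≤ n) (ho : Odd n) (v : Fin n) :
    expCover hn v ≤ ENNReal.ofReal ((n.choose 2 : ℝ) + 28 * ((n : ℝ) - 1)) := by
  have hn1 : (0 : ℝ) < (n : ℝ) - 1 := by
    have : (2 : ℝ) ≤ n := by exact_mod_cast hn
    linarith
  apply expCover_le
  intro T
  have h1 := upper_pot hn v (fun _ x H => InvO x H) (InvO_zero ho v)
    (fun _ _ _ hI _ hy => InvO_step hI hy) cst' (fun _ => potU) (fun _ _ _ hI => potU_step hn hI) T
  have h2 : 0 ≤ Ex hn v T potU := Ex_nonneg hn v T fun x H =>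
    add_nonneg (Nat.cast_nonneg _) (mul_nonneg hn1.le (QU_nonneg _ _ _))
  have h3 : potU v ∅ ≤ (n.choose 2 : ℝ) + 28 * ((n : ℝ) - 1) := by
    rw [potU, card_unused_empty]
    nlinarith [QU_init ho (n.choose 2) v]
  linarith

end Pool.Agent.MP_3173ec_pr

end

-- part MP_3173ec_pr.OddLower
section

/-!
The linear lower bound on the overhead for odd `n` (surviving triangles, second moment).
-/

open Finset

namespace Pool.Agent.MP_3173ec_pr

variable {n : ℕ}

theorem mem_supp_of_mem {F : Finset (Sym2 (Fin n))} {j : Fin n → ℕ} (hV : Valid F j)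
    {a b : Fin n} (h : s(a, b) ∈ F) : a ∈ supp j := by
  have h1 : 0 < degF F a := card_pos.2 ⟨b, mem_filter.2 ⟨mem_univ _, h⟩⟩
  rw [hV.2 a] at h1
  exact mem_filter.2 ⟨mem_univ _, by omega⟩

theorem valid_union {F F' : Finset (Sym2 (Fin n))} {j j' : Fin n → ℕ} (hV : Valid F j)
    (hV' : Valid F' j') (hD : Disjoint (supp j) (supp j')) : Valid (F ∪ F') (j + j') := by
  refine ⟨fun e he => (mem_union.1 he).elim (hV.1 e) (hV'.1 e), fun v => ?_⟩
  rw [Pi.add_apply, mul_add, ← hV.2 v, ← hV'.2 v]
  unfold degF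
  rw [← card_union_of_disjoint]
  · congr 1
    ext y
    simp
  · refine disjoint_left.2 fun y h1 h2 => ?_
    exact disjoint_left.1 hD (mem_supp_of_mem hV (mem_filter.1 h1).2)
      (mem_supp_of_mem hV' (mem_filter.1 h2).2)

theorem prod_phi_add {j j' : Fin n → ℕ} (hD : Disjoint (supp j) (supp j')) (D : Fin n → ℕ) :
    ∏ v, phi (D v) ((j + j') v) = (∏ v, phi (D v) (j v)) * ∏ v, phi (D v) (j' v) := by
  rw [← prod_mul_distrib]
  refine prod_congr rfl fun v _ => ?_
  by_cases h : j v = 0
  · simp [h]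
  · have h' : j' v = 0 := by
      by_contra h'
      exact disjoint_left.1 hD (mem_filter.2 ⟨mem_univ v, h⟩) (mem_filter.2 ⟨mem_univ v, h'⟩)
    simp [h']

theorem mart_union (F F' : Finset (Sym2 (Fin n))) {j j' : Fin n → ℕ}
    (hD : Disjoint (supp j) (supp j')) (x : Fin n) (H : Finset (Sym2 (Fin n))) :
    mart (F ∪ F') (j + j') x H = mart F j x H * mart F' j' x H := by
  unfold mart
  rw [prod_phi_add hD]
  by_cases h1 : Disjoint F H <;> by_cases h2 : Disjoint F' H <;> simp [h1, h2]

theorem mart0_union (F F' : Finset (Sym2 (Fin n))) {j j' : Fin n → ℕ}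
    (hD : Disjoint (supp j) (supp j')) (H : Finset (Sym2 (Fin n))) :
    mart0 (F ∪ F') (j + j') H = mart0 F j H * mart0 F' j' H := by
  unfold mart0
  rw [prod_phi_add hD]
  by_cases h1 : Disjoint F H <;> by_cases h2 : Disjoint F' H <;> simp [h1, h2]

theorem card_supp_add {j j' : Fin n → ℕ} (hD : Disjoint (supp j) (supp j')) :
    (supp (j + j')).card = (supp j).card + (supp j').card := by
  rw [← card_union_of_disjoint hD]
  congr 1
  ext v
  simp only [supp, mem_filter, mem_univ, true_and, mem_union, Pi.add_apply]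
  omega

/-- ordered triangles -/
def TT (n : ℕ) : Finset (Fin n × Fin n × Fin n) :=
  univ.filter fun t => t.1 ≠ t.2.1 ∧ t.2.1 ≠ t.2.2 ∧ t.2.2 ≠ t.1

/-- edges of a triangle -/
def tF (t : Fin n × Fin n × Fin n) : Finset (Sym2 (Fin n)) := edges t.1 [t.1, t.2.2, t.2.1]

/-- multiplicities of a triangle -/
def tj (t : Fin n × Fin n × Fin n) : Fin n → ℕ := fun v => [t.1, t.2.2, t.2.1].count v

theorem valid_tri {t : Fin n × Fin n × Fin n} (ht : t ∈ TT n) : Valid (tF t) (tj t) := by
  obtain ⟨a, b, c⟩ := t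
  obtain ⟨h1, h2, h3⟩ := (mem_filter.1 ht).2
  simp only at h1 h2 h3
  refine valid_closed ?_ rfl
  simp only [IsTr, hd, edges, mem_insert, notMem_empty, Sym2.eq_iff]
  aesop

theorem supp_tj (t : Fin n × Fin n × Fin n) : supp (tj t) = {t.1, t.2.2, t.2.1} := by
  unfold tj
  rw [supp_count]; simp

theorem card_supp_tj {t : Fin n × Fin n × Fin n} (ht : t ∈ TT n) : (supp (tj t)).card = 3 := by
  obtain ⟨h1, h2, h3⟩ := (mem_filter.1 ht).2
  rw [supp_tj, card_eq_three]
  exact ⟨_, _, _, h3.symm, h1, h2.symm, rfl⟩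

/-- triangle weight -/
noncomputable def tri (H : Finset (Sym2 (Fin n))) (a b c : Fin n) : ℝ :=
  if b ∈ fresh a H ∧ c ∈ fresh b H ∧ a ∈ fresh c H then
    af (fresh a H).card 0 * af (fresh b H).card 0 * af (fresh c H).card 0 else 0

theorem tri_nonneg (H : Finset (Sym2 (Fin n))) (a b c : Fin n) : 0 ≤ tri H a b c := by
  unfold tri
  split_ifs
  · exact mul_nonneg (mul_nonneg (af_nonneg _ _) (af_nonneg _ _)) (af_nonneg _ _)
  · exact le_rfl

theorem tri_rot (H : Finset (Sym2 (Fin n))) (a b c : Fin n) : tri H a b c = tri H b c a := by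
  unfold tri
  by_cases h : b ∈ fresh a H ∧ c ∈ fresh b H ∧ a ∈ fresh c H
  · rw [if_pos h, if_pos ⟨h.2.1, h.2.2, h.1⟩]; ring
  · rw [if_neg h, if_neg fun h' => h ⟨h'.2.2, h'.1, h'.2.1⟩]

theorem mart0_tri {t : Fin n × Fin n × Fin n} (ht : t ∈ TT n) (H : Finset (Sym2 (Fin n))) :
    mart0 (tF t) (tj t) H = tri H t.1 t.2.1 t.2.2 := by
  obtain ⟨a, b, c⟩ := t
  obtain ⟨h1, h2, h3⟩ := (mem_filter.1 ht).2
  simp only at h1 h2 h3
  have e : Disjoint (tF (a, b, c)) H ↔ b ∈ fresh a H ∧ c ∈ fresh b H ∧ a ∈ fresh c H := by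
    simp only [tF, edges, hd, disjoint_insert_left, mem_fresh, disjoint_empty_left]
    have := h1.symm; have := h2.symm; have := h3.symm
    tauto
  change (if Disjoint (tF (a, b, c)) H then W H [a, c, b] else 0) = _
  unfold tri
  simp only [e]
  split_ifs
  · rw [W_cons, W_cons, W_cons, W_nil]
    simp [h1.symm, h2, h3]
    ring
  · rfl

theorem card_mul_af_le_one (D : ℕ) : ((D - 1 : ℕ) : ℝ) * af D 0 ≤ 1 := by
  unfold af
  split_ifs
  · simp only [mul_zero, Nat.sub_zero, mul_one_div]
    exact div_self_le_one _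
  · simp

theorem card_mul_af_le_two (D : ℕ) : (D : ℝ) * af D 0 ≤ 2 := by
  unfold af
  split_ifs with h
  · simp only [mul_zero, Nat.sub_zero, mul_one_div]
    rcases Nat.eq_zero_or_pos D with rfl | hD
    · simp
    · obtain ⟨k, hk⟩ := h
      have h1 : D ≤ 2 * (D - 1) := by omega
      have h2 : 0 < D - 1 := by omega
      rw [div_le_iff₀ (by exact_mod_cast h2)]
      exact_mod_cast h1
  · simp

theorem sum_tri_le (H : Finset (Sym2 (Fin n))) (v : Fin n) : ∑ b, ∑ c, tri H v b c ≤ 2 := by
  have h1 : ∀ b, ∑ c, tri H v b c ≤ if b ∈ fresh v H then af (fresh v H).card 0 else 0 := by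
    intro b
    split_ifs with hb
    · calc ∑ c, tri H v b c ≤ ∑ c, if c ∈ (fresh b H).erase v then
            af (fresh v H).card 0 * af (fresh b H).card 0 else 0 := by
            refine sum_le_sum fun c _ => ?_
            have h0 := mul_nonneg (af_nonneg (fresh v H).card 0) (af_nonneg (fresh b H).card 0)
            unfold tri
            split_ifs with h1 h2
            · exact mul_le_of_le_one_right h0 (af_le_one _ _)
            · exact absurd (mem_erase.2 ⟨(mem_fresh.1 h1.2.2).1.symm, h1.2.1⟩) h2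
            · exact h0
            · exact le_rfl
        _ = af (fresh v H).card 0 * ((((fresh b H).card - 1 : ℕ) : ℝ) * af (fresh b H).card 0) := by
            rw [← sum_filter, filter_mem_eq_inter, univ_inter, sum_const, nsmul_eq_mul,
              card_erase_of_mem (mem_fresh_symm hb)]
            ring
        _ ≤ _ := mul_le_of_le_one_right (af_nonneg _ _) (card_mul_af_le_one _)
    · exact (sum_eq_zero fun c _ => if_neg fun h => hb h.1).le
  refine (sum_le_sum fun b _ => h1 b).trans ?_
  rw [← sum_filter, filter_mem_eq_inter, univ_inter, sum_const, nsmul_eq_mul]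
  exact card_mul_af_le_two _

theorem sum_tri_mem_le (H : Finset (Sym2 (Fin n))) (v : Fin n) :
    ∑ t ∈ TT n, (if v ∈ supp (tj t) then tri H t.1 t.2.1 t.2.2 else 0) ≤ 6 := by
  have h1 : ∑ t : Fin n × Fin n × Fin n, (if t.1 = v then tri H t.1 t.2.1 t.2.2 else 0) ≤ 2 := by
    rw [Fintype.sum_prod_type, sum_eq_single v (fun a _ ha => by simp [ha]) (by simp)]
    simpa [Fintype.sum_prod_type] using sum_tri_le H v
  have h2 : ∑ t : Fin n × Fin n × Fin n, (if t.2.1 = v then tri H t.1 t.2.1 t.2.2 else 0) ≤ 2 := by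
    simp only [Fintype.sum_prod_type]
    rw [sum_comm, sum_eq_single v (fun a _ ha => by simp [ha]) (by simp), sum_comm]
    simpa [tri_rot H _ v] using sum_tri_le H v
  have h3 : ∑ t : Fin n × Fin n × Fin n, (if t.2.2 = v then tri H t.1 t.2.1 t.2.2 else 0) ≤ 2 := by
    simp only [Fintype.sum_prod_type, sum_ite_eq', mem_univ, if_true]
    simpa [← tri_rot H v] using sum_tri_le H v
  calc _ ≤ ∑ t : Fin n × Fin n × Fin n, (if v ∈ supp (tj t) then tri H t.1 t.2.1 t.2.2 else 0) :=
        sum_le_sum_of_subset_of_nonneg (subset_univ _) fun t _ _ => by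
          split_ifs
          · exact tri_nonneg _ _ _ _
          · exact le_rfl
    _ ≤ ∑ t : Fin n × Fin n × Fin n, ((if t.1 = v then tri H t.1 t.2.1 t.2.2 else 0) +
          (if t.2.1 = v then tri H t.1 t.2.1 t.2.2 else 0) +
          (if t.2.2 = v then tri H t.1 t.2.1 t.2.2 else 0)) := by
        refine sum_le_sum fun t _ => ?_
        have h0 := tri_nonneg H t.1 t.2.1 t.2.2
        rw [supp_tj]
        simp only [mem_insert, mem_singleton, eq_comm (a := v)]
        split_ifs <;> first | linarith | tauto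
    _ ≤ 6 := by rw [sum_add_distrib, sum_add_distrib]; linarith

/-- first moment -/
noncomputable def S1 (x : Fin n) (H : Finset (Sym2 (Fin n))) : ℝ :=
  ∑ t ∈ TT n, mart (tF t) (tj t) x H

/-- triangles disjoint from a given one -/
def DJ (t : Fin n × Fin n × Fin n) : Finset (Fin n × Fin n × Fin n) :=
  (TT n).filter fun t' => Disjoint (supp (tj t)) (supp (tj t'))

/-- second moment -/
noncomputable def S2 (x : Fin n) (H : Finset (Sym2 (Fin n))) : ℝ :=
  ∑ t ∈ TT n, ∑ t' ∈ DJ t, mart (tF t ∪ tF t') (tj t + tj t') x H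

theorem S2_nonneg (x : Fin n) (H : Finset (Sym2 (Fin n))) : 0 ≤ S2 x H :=
  sum_nonneg fun _ _ => sum_nonneg fun _ _ => mart_nonneg _ _ _ _

theorem S2_le_sq (x : Fin n) (H : Finset (Sym2 (Fin n))) : S2 x H ≤ S1 x H ^ 2 := by
  rw [sq, S1, sum_mul_sum]
  refine sum_le_sum fun t _ => ?_
  refine (sum_congr rfl fun t' ht' => mart_union _ _ (mem_filter.1 ht').2 x H).trans_le ?_
  exact sum_le_sum_of_subset_of_nonneg (filter_subset _ _) fun t' _ _ =>
    mul_nonneg (mart_nonneg _ _ _ _) (mart_nonneg _ _ _ _)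

theorem valid_pair {t t' : Fin n × Fin n × Fin n} (ht : t ∈ TT n) (ht' : t' ∈ DJ t) :
    Valid (tF t ∪ tF t') (tj t + tj t') :=
  valid_union (valid_tri ht) (valid_tri (mem_filter.1 ht').1) (mem_filter.1 ht').2

theorem Pop_S1_greedy {x : Fin n} {H : Finset (Sym2 (Fin n))} (h : (fresh x H).Nonempty) :
    Pop S1 x H = S1 x H := by
  unfold S1
  rw [Pop_sum]
  exact sum_congr rfl fun t ht => Pop_mart_greedy (valid_tri ht) h

theorem Pop_S2_greedy {x : Fin n} {H : Finset (Sym2 (Fin n))} (h : (fresh x H).Nonempty) :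
    Pop S2 x H = S2 x H := by
  unfold S2
  rw [Pop_sum]
  refine sum_congr rfl fun t ht => ?_
  rw [Pop_sum]
  exact sum_congr rfl fun t' ht' => Pop_mart_greedy (valid_pair ht ht') h

theorem Pop_S1_stuck (hn : 2 ≤ n) {x : Fin n} {H : Finset (Sym2 (Fin n))}
    (h : ¬ (fresh x H).Nonempty) (hE : ∀ v, Even (fresh v H).card) :
    Pop S1 x H = S1 x H - 3 * S1 x H / ((n : ℝ) - 1) := by
  unfold S1
  rw [Pop_sum, mul_sum, sum_div, ← sum_sub_distrib]
  refine sum_congr rfl fun t ht => ?_
  rw [Pop_mart_stuck hn (valid_tri ht) h hE, card_supp_tj ht, mart_stuck (valid_tri ht) h]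
  simp

theorem Pop_S2_stuck (hn : 2 ≤ n) {x : Fin n} {H : Finset (Sym2 (Fin n))}
    (h : ¬ (fresh x H).Nonempty) (hE : ∀ v, Even (fresh v H).card) :
    Pop S2 x H = S2 x H - 6 * S2 x H / ((n : ℝ) - 1) := by
  unfold S2
  rw [Pop_sum, mul_sum, sum_div, ← sum_sub_distrib]
  refine sum_congr rfl fun t ht => ?_
  rw [Pop_sum, mul_sum, sum_div, ← sum_sub_distrib]
  refine sum_congr rfl fun t' ht' => ?_
  rw [Pop_mart_stuck hn (valid_pair ht ht') h hE, card_supp_add (mem_filter.1 ht').2,
    card_supp_tj ht, card_supp_tj (mem_filter.1 ht').1, mart_stuck (valid_pair ht ht') h]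
  norm_num

theorem mart_tri_stuck {t : Fin n × Fin n × Fin n} (ht : t ∈ TT n) {x : Fin n}
    {H : Finset (Sym2 (Fin n))} (h : ¬ (fresh x H).Nonempty) :
    mart (tF t) (tj t) x H = tri H t.1 t.2.1 t.2.2 := by
  rw [mart_stuck (valid_tri ht) h, mart0_tri ht]

theorem S2_ge_stuck {x : Fin n} {H : Finset (Sym2 (Fin n))} (h : ¬ (fresh x H).Nonempty) :
    S1 x H * (S1 x H - 18) ≤ S2 x H := by
  have h1 : S1 x H = ∑ t ∈ TT n, tri H t.1 t.2.1 t.2.2 :=
    sum_congr rfl fun t ht => mart_tri_stuck ht h
  rw [S2]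
  nth_rewrite 1 [h1]
  rw [sum_mul]
  refine sum_le_sum fun t ht => ?_
  rw [sum_congr rfl fun t' ht' => by
    rw [mart_union _ _ (mem_filter.1 ht').2 x H, mart_tri_stuck ht h,
      mart_tri_stuck (mem_filter.1 ht').1 h], ← mul_sum]
  refine mul_le_mul_of_nonneg_left ?_ (tri_nonneg _ _ _ _)
  rw [h1, ← sum_filter_add_sum_filter_not (TT n)
    (fun t' => Disjoint (supp (tj t)) (supp (tj t')))]
  have h2 : ∑ t' ∈ (TT n).filter (fun t' => ¬ Disjoint (supp (tj t)) (supp (tj t'))),
      tri H t'.1 t'.2.1 t'.2.2 ≤ 18 := by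
    calc _ ≤ ∑ t' ∈ TT n, ∑ v ∈ supp (tj t),
          (if v ∈ supp (tj t') then tri H t'.1 t'.2.1 t'.2.2 else 0) := by
          rw [sum_filter]
          refine sum_le_sum fun t' _ => ?_
          have h0 : ∀ v ∈ supp (tj t),
              0 ≤ (if v ∈ supp (tj t') then tri H t'.1 t'.2.1 t'.2.2 else 0) := fun v _ => by
            split_ifs
            · exact tri_nonneg _ _ _ _
            · exact le_rfl
          split_ifs with hd
          · exact sum_nonneg h0
          · obtain ⟨v, hv, hv'⟩ := not_disjoint_iff.1 hd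
            refine le_trans ?_ (single_le_sum h0 hv)
            rw [if_pos hv']
      _ ≤ ∑ _v ∈ supp (tj t), (6 : ℝ) := by
          rw [sum_comm]
          exact sum_le_sum fun v _ => sum_tri_mem_le H v
      _ = 18 := by rw [sum_const, card_supp_tj ht]; norm_num
  unfold DJ
  linarith

theorem S1_eq_zero {x : Fin n} {H : Finset (Sym2 (Fin n))} (hU : ¬ (unused H).Nonempty) :
    S1 x H = 0 := by
  have h0 := fresh_eq_empty_of_unused hU
  refine sum_eq_zero fun t ht => ?_
  rw [mart_tri_stuck ht (by simp [h0]), tri, if_neg (by simp [h0])]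

theorem S1_init (h5 : 5 ≤ n) (ho : Odd n) (v : Fin n) :
    S1 v ∅ = 1 - 1 / ((n : ℝ) - 2) ^ 2 := by
  have hE := even_fresh_empty ho
  have hρ : af (n - 1) 0 = 1 / ((n : ℝ) - 2) := by
    rw [af, if_pos (by obtain ⟨k, hk⟩ := ho; exact ⟨k, by omega⟩),
      show n - 1 - 1 - 2 * 0 = n - 2 by omega, Nat.cast_sub (by omega)]
    simp
  have h1 : S1 v ∅ = ∑ a ∈ univ.erase v, ∑ b ∈ (univ.erase v).erase a,
      ∑ _c ∈ ((univ.erase v).erase a).erase b, (1 / ((n : ℝ) - 2)) ^ 3 := by
    rw [S1, TT, sum_filter]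
    simp only [Fintype.sum_prod_type]
    have term : ∀ a b c : Fin n, (if a ≠ b ∧ b ≠ c ∧ c ≠ a then
        mart (tF (a, b, c)) (tj (a, b, c)) v ∅ else 0) =
        if a ∈ univ.erase v ∧ b ∈ (univ.erase v).erase a ∧ c ∈ ((univ.erase v).erase a).erase b
          then (1 / ((n : ℝ) - 2)) ^ 3 else 0 := by
      intro a b c
      by_cases hd : a ≠ b ∧ b ≠ c ∧ c ≠ a
      · have ht : (a, b, c) ∈ TT n := mem_filter.2 ⟨mem_univ _, hd⟩
        have e0 : tri ∅ a b c = (1 / ((n : ℝ) - 2)) ^ 3 := by
          rw [tri, if_pos (by simp [mem_fresh, hd.1.symm, hd.2.1.symm, hd.2.2.symm])]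
          simp only [card_fresh_empty, hρ]
          ring
        rw [if_pos hd, mart_of_even _ _ (hE v), mart0_tri ht, e0]
        have e : tj (a, b, c) v = 0 ↔ a ∈ univ.erase v ∧ b ∈ (univ.erase v).erase a ∧
            c ∈ ((univ.erase v).erase a).erase b := by
          simp only [tj, List.count_eq_zero, mem_erase, mem_univ, List.mem_cons, List.not_mem_nil]
          have := hd.1.symm; have := hd.2.1.symm
          tauto
        simp only [e]
      · rw [if_neg hd, if_neg]
        simp only [mem_erase]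
        tauto
    simp only [term]
    simp only [ite_and, sum_ite_irrel, sum_const_zero, sum_ite_mem, univ_inter]
  have hn : (5 : ℝ) ≤ n := by exact_mod_cast h5
  have c1 : ((univ : Finset (Fin n)).erase v).card = n - 1 := by
    rw [card_erase_of_mem (mem_univ _), card_univ, Fintype.card_fin]
  rw [h1, sum_congr rfl (g := fun _ => ((n : ℝ) - 2) * (((n : ℝ) - 3) * (1 / ((n : ℝ) - 2)) ^ 3))]
  · rw [sum_const, nsmul_eq_mul, c1, Nat.cast_sub (by omega)]
    have : (n : ℝ) - 2 ≠ 0 := by linarith
    field_simp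
    ring
  · intro a ha
    rw [sum_congr rfl (g := fun _ => (((n : ℝ) - 3) * (1 / ((n : ℝ) - 2)) ^ 3))]
    · rw [sum_const, nsmul_eq_mul, card_erase_of_mem ha, c1,
        show n - 1 - 1 = n - 2 by omega, Nat.cast_sub (by omega)]
      simp
    · intro b hb
      rw [sum_const, nsmul_eq_mul, card_erase_of_mem hb, card_erase_of_mem ha, c1,
        show n - 1 - 1 - 1 = n - 3 by omega, Nat.cast_sub (by omega)]
      simp

/-- potential for the lower bound -/
noncomputable def potL (x : Fin n) (H : Finset (Sym2 (Fin n))) : ℝ :=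
  (unused H).card + ((n : ℝ) - 1) / 271 * (S1 x H + (-1 / 2) * S2 x H)

theorem potL_step (hn : 2 ≤ n) {x : Fin n} {H : Finset (Sym2 (Fin n))} (hI : InvO x H) :
    potL x H ≤ cst x H + Pop potL x H := by
  have hn1 : (0 : ℝ) < (n : ℝ) - 1 := by
    have : (2 : ℝ) ≤ n := by exact_mod_cast hn
    linarith
  have hP : Pop potL x H = Pop (fun _ H => ((unused H).card : ℝ)) x H +
      ((n : ℝ) - 1) / 271 * (Pop S1 x H + (-1 / 2) * Pop S2 x H) := by
    rw [← Pop_mul, ← Pop_add, ← Pop_mul, ← Pop_add]; rfl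
  rw [hP, potL]
  by_cases h : (fresh x H).Nonempty
  · rw [cst_greedy h, Pop_unused_greedy hn h, Pop_S1_greedy h, Pop_S2_greedy h]
    linarith
  · have hE := even_of_oddSet (even_of_stuck hI h)
    rw [Pop_unused_stuck hn h, Pop_S1_stuck hn h hE, Pop_S2_stuck hn h hE]
    have key : 3 * (S1 x H - S2 x H) / 271 ≤ cst x H := by
      unfold cst
      split_ifs with hU
      · nlinarith [S2_ge_stuck h, sq_nonneg (S1 x H - 19 / 2)]
      · rw [S1_eq_zero hU]; linarith [S2_nonneg x H]
    have e : ((n : ℝ) - 1) / 271 * (S1 x H - 3 * S1 x H / ((n : ℝ) - 1) +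
        (-1 / 2) * (S2 x H - 6 * S2 x H / ((n : ℝ) - 1))) =
        ((n : ℝ) - 1) / 271 * (S1 x H + (-1 / 2) * S2 x H) - 3 * (S1 x H - S2 x H) / 271 := by
      field_simp
      ring
    rw [e]
    linarith

theorem odd_lower (hn : 2 ≤ n) (h5 : 5 ≤ n) (ho : Odd n) (v : Fin n) :
    ENNReal.ofReal ((n.choose 2 : ℝ) + ((n : ℝ) - 1) / 723) ≤ expCover hn v := by
  have hn5 : (5 : ℝ) ≤ n := by exact_mod_cast h5
  obtain ⟨K, hK⟩ : ∃ K, ∀ p : Fin n × Finset (Sym2 (Fin n)), potL p.1 p.2 ≤ K :=
    (Finite.bddAbove_range fun p : Fin n × Finset (Sym2 (Fin n)) => potL p.1 p.2).imp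
      fun C hC p => hC ⟨p, rfl⟩
  apply le_expCover_of_rem hn v _ K
  intro T
  have h1 := lower_pot hn v (fun _ x H => InvO x H) (InvO_zero ho v)
    (fun _ _ _ hI _ hy => InvO_step hI hy) cst (fun _ => potL) (fun _ _ _ hI => potL_step hn hI) T
  have h2 : Ex hn v T potL ≤ K * Ex hn v T cst := by
    rw [← Ex_smul]
    refine Ex_mono hn v (fun _ _ _ => True) trivial (fun _ _ _ _ _ _ => trivial) T _ _ ?_
    intro x H _
    unfold cst
    split_ifs with h
    · simpa using hK (x, H)
    · rw [potL, S1_eq_zero h, not_nonempty_iff_eq_empty.1 h]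
      have := S2_nonneg x H
      have h3 : 0 ≤ ((n : ℝ) - 1) / 271 := by linarith
      simp only [card_empty, Nat.cast_zero, zero_add, mul_zero]
      nlinarith
  have h3 : (n.choose 2 : ℝ) + ((n : ℝ) - 1) / 723 ≤ potL v ∅ := by
    rw [potL, card_unused_empty]
    have h4 := S2_le_sq v ∅
    have h5 := S1_init h5 ho v
    have h6 : 0 ≤ 1 / ((n : ℝ) - 2) ^ 2 := by positivity
    have h7 : 1 / ((n : ℝ) - 2) ^ 2 ≤ 1 / 2 := by
      apply one_div_le_one_div_of_le (by norm_num); nlinarith
    have h8 : 3 / 8 ≤ S1 v ∅ + (-1 / 2) * S2 v ∅ := by nlinarith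
    have h9 : 0 ≤ ((n : ℝ) - 1) / 271 := by linarith
    nlinarith [mul_le_mul_of_nonneg_left h8 h9]
  linarith

end Pool.Agent.MP_3173ec_pr

end
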