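import Pool.Agent.MP_3173ec_pr.Defs

-- part MP_3173ec_pr.Chain
section

/-!
Reduction of the greedy random walk on `K_n` to a finite Markov operator on states
(current vertex, set of used edges).
-/

open MeasureTheory ProbabilityTheory Finset Preorder
open scoped ENNReal

namespace Pool.Agent.MP_3173ec_pr

variable {n : ℕ}

/-- used edges as a finset -/
def HF (X : ℕ → Fin n) (t : ℕ) : Finset (Sym2 (Fin n)) :=
  (range t).image fun s => s(X s, X (s + 1))

theorem coe_HF (X : ℕ → Fin n) (t : ℕ) : (HF X t : Set (Sym2 (Fin n))) = traversed X t := by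
  ext e
  simp only [HF, traversed, coe_image, coe_range, Set.mem_image, Set.mem_Iio, Set.mem_setOf_eq]
  constructor
  · rintro ⟨s, hs, rfl⟩
    exact ⟨s + 1, by omega, by omega, by simp⟩
  · rintro ⟨s, h0, hs, rfl⟩
    obtain ⟨s, rfl⟩ : ∃ r, s = r + 1 := ⟨s - 1, by omega⟩
    exact ⟨s, by omega, by simp⟩

theorem HF_succ (X : ℕ → Fin n) (t : ℕ) : HF X (t + 1) = insert s(X t, X (t + 1)) (HF X t) := by
  simp [HF, range_add_one]

theorem HF_congr {X Y : ℕ → Fin n} {t : ℕ} (h : ∀ i ≤ t, X i = Y i) : HF X t = HF Y t := by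
  unfold HF
  refine image_congr fun s hs => ?_
  have hs : s < t := by simpa using hs
  simp only [h s hs.le, h (s + 1) hs]

theorem HF_mono (X : ℕ → Fin n) {s t : ℕ} (h : s ≤ t) : HF X s ⊆ HF X t :=
  image_subset_image (range_subset_range.2 h)

/-- fresh neighbours -/
def fresh (x : Fin n) (H : Finset (Sym2 (Fin n))) : Finset (Fin n) :=
  univ.filter fun y => y ≠ x ∧ s(x, y) ∉ H

/-- options for the next vertex -/
def opts (x : Fin n) (H : Finset (Sym2 (Fin n))) : Finset (Fin n) :=
  if (fresh x H).Nonempty then fresh x H else univ.erase x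

theorem coe_fresh (X : ℕ → Fin n) (t : ℕ) :
    (fresh (X t) (HF X t) : Set (Fin n)) = freshNbrs ⊤ X t := by
  ext y
  simp [fresh, freshNbrs, ← coe_HF, ne_comm]

theorem coe_opts (X : ℕ → Fin n) (t : ℕ) :
    (opts (X t) (HF X t) : Set (Fin n)) = nextSet ⊤ X t := by
  unfold opts nextSet
  rw [← coe_fresh]
  by_cases h : (fresh (X t) (HF X t)).Nonempty
  · rw [if_pos h, if_pos (by simpa using h)]
  · rw [if_neg h, if_neg (by simpa using h)]
    ext y
    simp [ne_comm]

/-- The Markov operator. -/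
noncomputable def Pop (g : Fin n → Finset (Sym2 (Fin n)) → ℝ) (x : Fin n)
    (H : Finset (Sym2 (Fin n))) : ℝ :=
  (∑ y ∈ opts x H, g y (insert s(x, y) H)) / (opts x H).card

instance (hn : 2 ≤ n) (v : Fin n) : IsProbabilityMeasure (law hn v) := by
  have := stepKernel_markov hn
  unfold law
  infer_instance

/-- expectation of a function of the state at time `t` -/
noncomputable def Ex (hn : 2 ≤ n) (v : Fin n) (t : ℕ) (g : Fin n → Finset (Sym2 (Fin n)) → ℝ) :
    ℝ :=
  ∫ X, g (X t) (HF X t) ∂(law hn v)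

/-- extension of a finite history -/
def ext {t : ℕ} (h : Π _ : Iic t, Fin n) : ℕ → Fin n :=
  fun i => h ⟨min i t, Finset.mem_Iic.2 (min_le_right i t)⟩

theorem ext_frestrictLe (X : ℕ → Fin n) (t : ℕ) {i : ℕ} (hi : i ≤ t) :
    ext (frestrictLe (π := fun _ => Fin n) t X) i = X i := by
  simp [ext, frestrictLe, min_eq_left hi]

theorem integral_uniformOn_finset (s : Finset (Fin n)) (f : Fin n → ℝ) :
    ∫ y, f y ∂(uniformOn (s : Set (Fin n))) = (∑ y ∈ s, f y) / s.card := by
  rw [uniformOn, ProbabilityTheory.cond, integral_smul_measure]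
  rw [MeasureTheory.setIntegral_finset _ (Integrable.of_finite).integrableOn]
  simp [Measure.real, div_eq_inv_mul]

theorem measurable_state (t : ℕ) (g : Fin n → Finset (Sym2 (Fin n)) → ℝ) :
    Measurable fun X : ℕ → Fin n => g (X t) (HF X t) := by
  have : (fun X : ℕ → Fin n => g (X t) (HF X t)) =
      (fun h : Π _ : Iic t, Fin n => g (ext h t) (HF (ext h) t)) ∘
        frestrictLe (π := fun _ => Fin n) t := by
    funext X
    simp only [Function.comp]
    rw [ext_frestrictLe X t le_rfl, HF_congr (fun i hi => ext_frestrictLe X t hi)]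
  rw [this]
  exact (measurable_of_countable _).comp (measurable_frestrictLe t)

theorem integrable_state (hn : 2 ≤ n) (v : Fin n) (t : ℕ)
    (g : Fin n → Finset (Sym2 (Fin n)) → ℝ) :
    Integrable (fun X : ℕ → Fin n => g (X t) (HF X t)) (law hn v) := by
  obtain ⟨C, hC⟩ : ∃ C, ∀ p : Fin n × Finset (Sym2 (Fin n)), ‖g p.1 p.2‖ ≤ C :=
    (Finite.bddAbove_range fun p : Fin n × Finset (Sym2 (Fin n)) => ‖g p.1 p.2‖).imp
      fun C hC p => hC ⟨p, rfl⟩
  exact Integrable.of_bound (measurable_state t g).aestronglyMeasurable C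
    (Filter.Eventually.of_forall fun X => hC (X t, HF X t))

theorem Ex_zero (hn : 2 ≤ n) (v : Fin n) (g : Fin n → Finset (Sym2 (Fin n)) → ℝ) :
    Ex hn v 0 g = g v ∅ := by
  have := stepKernel_markov hn
  have h1 : (law hn v).map (frestrictLe (π := fun _ => Fin n) 0) =
      Measure.dirac (fun _ => v) := by
    unfold law Kernel.trajMeasure
    rw [Measure.map_comp _ _ (measurable_frestrictLe 0), Kernel.traj_map_frestrictLe,
      Kernel.partialTraj_self, Measure.id_comp, Measure.map_dirac' (by fun_prop)]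
    rfl
  have h2 : Ex hn v 0 g = ∫ h, g (ext h 0) ∅ ∂((law hn v).map
      (frestrictLe (π := fun _ => Fin n) 0)) := by
    rw [integral_map (measurable_frestrictLe 0).aemeasurable
      (measurable_of_countable _).aestronglyMeasurable]
    rfl
  rw [h2, h1, integral_dirac]
  rfl

theorem Ex_succ (hn : 2 ≤ n) (v : Fin n) (t : ℕ) (g : Fin n → Finset (Sym2 (Fin n)) → ℝ) :
    Ex hn v (t + 1) g = Ex hn v t (Pop g) := by
  have := stepKernel_markov hn
  have key := Kernel.map_frestrictLe_trajMeasure_compProd_eq_map_trajMeasure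
    (X := fun _ => Fin n) (μ₀ := Measure.dirac v) (κ := stepKernel n) (a := t)
  let F : (Π _ : Iic t, Fin n) × Fin n → ℝ :=
    fun p => g p.2 (insert s(ext p.1 t, p.2) (HF (ext p.1) t))
  have h1 : Ex hn v (t + 1) g = ∫ p, F p ∂((law hn v).map
      (fun X => (frestrictLe (π := fun _ => Fin n) t X, X (t + 1)))) := by
    rw [integral_map (by fun_prop) (measurable_of_countable _).aestronglyMeasurable]
    unfold Ex
    congr 1
    funext X
    simp only [F]
    rw [ext_frestrictLe X t le_rfl, HF_congr (fun i hi => ext_frestrictLe X t hi), HF_succ]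
  rw [h1]
  unfold law
  rw [← key, Measure.integral_compProd Integrable.of_finite,
    integral_map (measurable_frestrictLe t).aemeasurable
      (measurable_of_countable _).aestronglyMeasurable]
  unfold Ex law
  congr 1
  funext X
  have : stepKernel n t (frestrictLe (π := fun _ => Fin n) t X) =
      uniformOn (opts (X t) (HF X t) : Set (Fin n)) := by
    change uniformOn (nextSet ⊤ (ext (frestrictLe (π := fun _ => Fin n) t X)) t) = _
    rw [← coe_opts, ext_frestrictLe X t le_rfl, HF_congr (fun i hi => ext_frestrictLe X t hi)]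
  rw [this, integral_uniformOn_finset]
  simp only [F, Pop]
  rw [ext_frestrictLe X t le_rfl, HF_congr (fun i hi => ext_frestrictLe X t hi)]

end Pool.Agent.MP_3173ec_pr

end

-- part MP_3173ec_pr.Potential
section

/-!
Potential-function bounds for the expected edge cover time.
-/

open MeasureTheory ProbabilityTheory Finset Preorder Filter Topology
open scoped ENNReal

namespace Pool.Agent.MP_3173ec_pr

variable {n : ℕ}

/-- unused edges of the complete graph -/
def unused (H : Finset (Sym2 (Fin n))) : Finset (Sym2 (Fin n)) :=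
  univ.filter fun e => ¬ e.IsDiag ∧ e ∉ H

/-- indicator that some edge is still unused -/
noncomputable def cst (_ : Fin n) (H : Finset (Sym2 (Fin n))) : ℝ :=
  if (unused H).Nonempty then 1 else 0

theorem cst_nonneg (x : Fin n) (H : Finset (Sym2 (Fin n))) : 0 ≤ cst x H := by
  unfold cst; split_ifs <;> norm_num

theorem opts_nonempty (hn : 2 ≤ n) (x : Fin n) (H : Finset (Sym2 (Fin n))) :
    (opts x H).Nonempty := by
  unfold opts
  split_ifs with h
  · exact h
  · have : Nontrivial (Fin n) := Fin.nontrivial_iff_two_le.2 hn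
    obtain ⟨w, hw⟩ := exists_ne x
    exact ⟨w, by simp [hw]⟩

theorem ne_of_mem_opts {x y : Fin n} {H : Finset (Sym2 (Fin n))} (h : y ∈ opts x H) : y ≠ x := by
  unfold opts at h
  split_ifs at h with h'
  · exact ((mem_filter.1 h).2).1
  · exact (mem_erase.1 h).1

theorem Pop_mono {f g : Fin n → Finset (Sym2 (Fin n)) → ℝ} {x : Fin n}
    {H : Finset (Sym2 (Fin n))}
    (h : ∀ y ∈ opts x H, f y (insert s(x, y) H) ≤ g y (insert s(x, y) H)) :
    Pop f x H ≤ Pop g x H :=
  div_le_div_of_nonneg_right (sum_le_sum h) (Nat.cast_nonneg _)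

theorem Ex_add (hn : 2 ≤ n) (v : Fin n) (t : ℕ) (f g : Fin n → Finset (Sym2 (Fin n)) → ℝ) :
    Ex hn v t (fun x H => f x H + g x H) = Ex hn v t f + Ex hn v t g :=
  integral_add (integrable_state hn v t f) (integrable_state hn v t g)

theorem Ex_smul (hn : 2 ≤ n) (v : Fin n) (t : ℕ) (a : ℝ) (f : Fin n → Finset (Sym2 (Fin n)) → ℝ) :
    Ex hn v t (fun x H => a * f x H) = a * Ex hn v t f :=
  integral_const_mul a _

theorem Ex_nonneg (hn : 2 ≤ n) (v : Fin n) (t : ℕ) {f : Fin n → Finset (Sym2 (Fin n)) → ℝ}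
    (hf : ∀ x H, 0 ≤ f x H) : 0 ≤ Ex hn v t f :=
  integral_nonneg fun _ => hf _ _

section Inv

variable (hn : 2 ≤ n) (v : Fin n) (Inv : ℕ → Fin n → Finset (Sym2 (Fin n)) → Prop)
  (h0 : Inv 0 v ∅)
  (hs : ∀ t x H, Inv t x H → ∀ y ∈ opts x H, Inv (t + 1) y (insert s(x, y) H))

include h0 hs

theorem Ex_mono (t : ℕ) : ∀ f g : Fin n → Finset (Sym2 (Fin n)) → ℝ,
    (∀ x H, Inv t x H → f x H ≤ g x H) → Ex hn v t f ≤ Ex hn v t g := by
  induction t with
  | zero =>
    intro f g h
    rw [Ex_zero, Ex_zero]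
    exact h _ _ h0
  | succ t ih =>
    intro f g h
    rw [Ex_succ, Ex_succ]
    exact ih _ _ fun x H hI => Pop_mono fun y hy => h _ _ (hs t x H hI y hy)

theorem lower_pot (c : Fin n → Finset (Sym2 (Fin n)) → ℝ)
    (L : ℕ → Fin n → Finset (Sym2 (Fin n)) → ℝ)
    (hL : ∀ t x H, Inv t x H → L t x H ≤ c x H + Pop (L (t + 1)) x H) (T : ℕ) :
    L 0 v ∅ ≤ ∑ t ∈ range T, Ex hn v t c + Ex hn v T (L T) := by
  induction T with
  | zero => simp [Ex_zero]
  | succ T ih =>
    rw [sum_range_succ, Ex_succ, add_assoc, ← Ex_add]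
    exact ih.trans (by gcongr; exact Ex_mono hn v Inv h0 hs T _ _ (hL T))

theorem upper_pot (c : Fin n → Finset (Sym2 (Fin n)) → ℝ)
    (L : ℕ → Fin n → Finset (Sym2 (Fin n)) → ℝ)
    (hL : ∀ t x H, Inv t x H → c x H + Pop (L (t + 1)) x H ≤ L t x H) (T : ℕ) :
    ∑ t ∈ range T, Ex hn v t c + Ex hn v T (L T) ≤ L 0 v ∅ := by
  induction T with
  | zero => simp [Ex_zero]
  | succ T ih =>
    rw [sum_range_succ, Ex_succ, add_assoc, ← Ex_add]
    exact le_trans (by gcongr; exact Ex_mono hn v Inv h0 hs T _ _ (hL T)) ih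

end Inv

theorem unused_eq_empty_of_cover {X : ℕ → Fin n} {s t : ℕ} (hst : s ≤ t)
    (h : traversed X s = (⊤ : SimpleGraph (Fin n)).edgeSet) : ¬ (unused (HF X t)).Nonempty := by
  rintro ⟨e, he⟩
  obtain ⟨h1, h2⟩ := (mem_filter.1 he).2
  apply h2
  apply HF_mono X hst
  rw [← mem_coe, coe_HF, h]
  simpa using h1

theorem sum_cst_le_coverTime (X : ℕ → Fin n) (T : ℕ) :
    ENNReal.ofReal (∑ t ∈ range T, cst (X t) (HF X t)) ≤ coverTime ⊤ X := by
  unfold coverTime
  refine le_iInf₂ fun s hs => ?_
  rw [← ENNReal.ofReal_natCast]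
  apply ENNReal.ofReal_le_ofReal
  calc ∑ t ∈ range T, cst (X t) (HF X t) ≤ ∑ t ∈ range T, if t < s then (1 : ℝ) else 0 := by
        refine sum_le_sum fun t _ => ?_
        unfold cst
        by_cases hts : t < s
        · rw [if_pos hts]; split_ifs <;> norm_num
        · rw [if_neg hts, if_neg (unused_eq_empty_of_cover (not_lt.1 hts) hs)]
    _ ≤ s := by
        rw [← sum_filter, sum_const, nsmul_eq_mul, mul_one, Nat.cast_le]
        calc _ ≤ (range s).card := card_le_card fun t ht => mem_range.2 (mem_filter.1 ht).2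
          _ = s := card_range s

theorem ofReal_sum_le_expCover (hn : 2 ≤ n) (v : Fin n) (T : ℕ) :
    ENNReal.ofReal (∑ t ∈ range T, Ex hn v t cst) ≤ expCover hn v := by
  unfold Ex expCover
  rw [← integral_finsetSum _ fun t _ => integrable_state hn v t cst,
    ofReal_integral_eq_lintegral_ofReal
      (integrable_finsetSum _ fun t _ => integrable_state hn v t cst)
      (Eventually.of_forall fun X => sum_nonneg fun t _ => cst_nonneg _ _)]
  exact lintegral_mono fun X => sum_cst_le_coverTime X T

/-- lower bound from an estimate with a vanishing remainder -/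
theorem le_expCover_of_rem (hn : 2 ≤ n) (v : Fin n) (B K : ℝ)
    (h : ∀ T, B ≤ ∑ t ∈ range T, Ex hn v t cst + K * Ex hn v T cst) :
    ENNReal.ofReal B ≤ expCover hn v := by
  by_cases htop : expCover hn v = ⊤
  · rw [htop]; exact le_top
  have hnn : ∀ t, 0 ≤ Ex hn v t cst := fun t => Ex_nonneg hn v t cst_nonneg
  have hb : ∀ T, ∑ t ∈ range T, Ex hn v t cst ≤ (expCover hn v).toReal := fun T =>
    (ENNReal.ofReal_le_iff_le_toReal htop).1 (ofReal_sum_le_expCover hn v T)
  have hsum : Summable fun t => Ex hn v t cst := summable_of_sum_range_le hnn hb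
  have h0 : Tendsto (fun T => (expCover hn v).toReal + K * Ex hn v T cst) atTop
      (𝓝 ((expCover hn v).toReal + K * 0)) :=
    tendsto_const_nhds.add (hsum.tendsto_atTop_zero.const_mul K)
  rw [mul_zero, add_zero] at h0
  rw [ENNReal.ofReal_le_iff_le_toReal htop]
  exact ge_of_tendsto' h0 fun T => (h T).trans (by linarith [hb T])

open Classical in
/-- indicator that the used set is not the edge set -/
noncomputable def cst' (_ : Fin n) (H : Finset (Sym2 (Fin n))) : ℝ :=
  if (H : Set (Sym2 (Fin n))) = (⊤ : SimpleGraph (Fin n)).edgeSet then 0 else 1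

theorem cst'_nonneg (x : Fin n) (H : Finset (Sym2 (Fin n))) : 0 ≤ cst' x H := by
  unfold cst'; split_ifs <;> norm_num

theorem coverTime_le_tsum (X : ℕ → Fin n) :
    coverTime ⊤ X ≤ ∑' t, ENNReal.ofReal (cst' (X t) (HF X t)) := by
  classical
  by_cases h : ∃ t, traversed X t = (⊤ : SimpleGraph (Fin n)).edgeSet
  · calc coverTime ⊤ X ≤ (Nat.find h : ℝ≥0∞) := iInf₂_le (Nat.find h) (Nat.find_spec h)
      _ = ∑ t ∈ range (Nat.find h), ENNReal.ofReal (cst' (X t) (HF X t)) := by
        rw [sum_congr rfl (g := fun _ => (1 : ℝ≥0∞))]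
        · simp
        · intro t ht
          unfold cst'
          rw [coe_HF, if_neg (Nat.find_min h (mem_range.1 ht))]
          simp
      _ ≤ _ := ENNReal.sum_le_tsum _
  · have : ∀ t, ENNReal.ofReal (cst' (X t) (HF X t)) = 1 := by
      intro t
      unfold cst'
      rw [coe_HF, if_neg (fun h' => h ⟨t, h'⟩)]
      simp
    simp [this]

theorem expCover_le (hn : 2 ≤ n) (v : Fin n) (B : ℝ)
    (h : ∀ T, ∑ t ∈ range T, Ex hn v t cst' ≤ B) : expCover hn v ≤ ENNReal.ofReal B := by
  calc expCover hn v ≤ ∫⁻ X, ∑' t, ENNReal.ofReal (cst' (X t) (HF X t)) ∂(law hn v) :=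
        lintegral_mono coverTime_le_tsum
    _ = ∑' t, ∫⁻ X, ENNReal.ofReal (cst' (X t) (HF X t)) ∂(law hn v) :=
        lintegral_tsum fun t => (measurable_state t cst').ennreal_ofReal.aemeasurable
    _ = ∑' t, ENNReal.ofReal (Ex hn v t cst') := by
        congr 1
        funext t
        rw [Ex, ofReal_integral_eq_lintegral_ofReal (integrable_state hn v t cst')
          (Eventually.of_forall fun X => cst'_nonneg _ _)]
    _ ≤ ENNReal.ofReal B := by
        refine ENNReal.tsum_le_of_sum_range_le fun T => ?_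
        rw [← ENNReal.ofReal_sum_of_nonneg fun t _ => Ex_nonneg hn v t cst'_nonneg]
        exact ENNReal.ofReal_le_ofReal (h T)

theorem cst'_eq_cst {x : Fin n} {H : Finset (Sym2 (Fin n))} (hH : ∀ e ∈ H, ¬ e.IsDiag) :
    cst' x H = cst x H := by
  unfold cst cst'
  by_cases h : (unused H).Nonempty
  · rw [if_pos h, if_neg]
    intro h'
    obtain ⟨e, he⟩ := h
    obtain ⟨h1, h2⟩ := (mem_filter.1 he).2
    apply h2
    rw [← mem_coe, h']
    simpa using h1
  · rw [if_neg h, if_pos]
    ext e
    constructor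
    · intro he
      simpa using hH e he
    · intro he
      by_contra hne
      exact h ⟨e, mem_filter.2 ⟨mem_univ _, by simpa using he, hne⟩⟩

end Pool.Agent.MP_3173ec_pr

end

-- part MP_3173ec_pr.Parity
section

/-!
The parity set `S = Odd(unused graph) Δ {current vertex}` and the lower bound for even `n`.
-/

open MeasureTheory ProbabilityTheory Finset Preorder Filter Topology
open scoped ENNReal

namespace Pool.Agent.MP_3173ec_pr

variable {n : ℕ}

theorem mem_fresh {x y : Fin n} {H : Finset (Sym2 (Fin n))} :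
    y ∈ fresh x H ↔ y ≠ x ∧ s(x, y) ∉ H := by simp [fresh]

theorem mem_fresh_symm {x y : Fin n} {H : Finset (Sym2 (Fin n))} (h : y ∈ fresh x H) :
    x ∈ fresh y H := by
  rw [mem_fresh] at h ⊢
  exact ⟨h.1.symm, by rw [Sym2.eq_swap]; exact h.2⟩

theorem fresh_insert_left (x y : Fin n) (H : Finset (Sym2 (Fin n))) :
    fresh x (insert s(x, y) H) = (fresh x H).erase y := by
  ext z
  simp only [mem_fresh, mem_insert, mem_erase, Sym2.eq_iff]
  aesop

theorem fresh_insert_right (x y : Fin n) (H : Finset (Sym2 (Fin n))) :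
    fresh y (insert s(x, y) H) = (fresh y H).erase x := by
  rw [Sym2.eq_swap, fresh_insert_left]

theorem fresh_insert_other {x y w : Fin n} (H : Finset (Sym2 (Fin n))) (hx : w ≠ x) (hy : w ≠ y) :
    fresh w (insert s(x, y) H) = fresh w H := by
  ext z
  simp only [mem_fresh, mem_insert, Sym2.eq_iff]
  aesop

theorem mem_unused {e : Sym2 (Fin n)} {H : Finset (Sym2 (Fin n))} :
    e ∈ unused H ↔ ¬ e.IsDiag ∧ e ∉ H := by simp [unused]

theorem mk_mem_unused {x y : Fin n} {H : Finset (Sym2 (Fin n))} :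
    s(x, y) ∈ unused H ↔ y ∈ fresh x H := by
  simp [mem_unused, mem_fresh, eq_comm]

theorem unused_insert (e : Sym2 (Fin n)) (H : Finset (Sym2 (Fin n))) :
    unused (insert e H) = (unused H).erase e := by
  ext z
  simp only [mem_unused, mem_insert, mem_erase]
  tauto

theorem insert_eq_of_stuck {x y : Fin n} {H : Finset (Sym2 (Fin n))}
    (h : ¬ (fresh x H).Nonempty) (hy : y ≠ x) : insert s(x, y) H = H := by
  apply insert_eq_of_mem
  by_contra hne
  exact h ⟨y, mem_fresh.2 ⟨hy, hne⟩⟩

/-- the parity set -/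
def parSet (x : Fin n) (H : Finset (Sym2 (Fin n))) : Finset (Fin n) :=
  univ.filter fun w => (Odd (fresh w H).card ↔ w ≠ x)

/-- vertices of odd unused degree -/
def oddSet (H : Finset (Sym2 (Fin n))) : Finset (Fin n) :=
  univ.filter fun w => Odd (fresh w H).card

theorem parSet_greedy {x y : Fin n} {H : Finset (Sym2 (Fin n))} (h : y ∈ fresh x H) :
    parSet y (insert s(x, y) H) = parSet x H := by
  have hyx : y ≠ x := (mem_fresh.1 h).1
  ext w
  simp only [parSet, mem_filter, mem_univ, true_and]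
  by_cases hwx : w = x
  · subst hwx
    rw [fresh_insert_left, card_erase_of_mem h]
    have : 0 < (fresh w H).card := card_pos.2 ⟨y, h⟩
    obtain ⟨k, hk⟩ : ∃ k, (fresh w H).card = k + 1 := ⟨(fresh w H).card - 1, by omega⟩
    rw [hk]
    simp [Nat.odd_add_one, hyx.symm]
  · by_cases hwy : w = y
    · subst hwy
      rw [fresh_insert_right, card_erase_of_mem (mem_fresh_symm h)]
      have : 0 < (fresh w H).card := card_pos.2 ⟨x, mem_fresh_symm h⟩
      obtain ⟨k, hk⟩ : ∃ k, (fresh w H).card = k + 1 := ⟨(fresh w H).card - 1, by omega⟩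
      rw [hk]
      simp [Nat.odd_add_one, hyx]
    · rw [fresh_insert_other H hwx hwy]
      simp [hwx, hwy]

theorem parSet_of_mem {y : Fin n} {H : Finset (Sym2 (Fin n))} (h : y ∈ oddSet H) :
    parSet y H = (oddSet H).erase y := by
  ext w
  simp only [parSet, oddSet, mem_filter, mem_univ, true_and, mem_erase] at h ⊢
  by_cases hw : w = y
  · subst hw; simp [h]
  · simp [hw]

theorem parSet_of_notMem {y : Fin n} {H : Finset (Sym2 (Fin n))} (h : y ∉ oddSet H) :
    parSet y H = insert y (oddSet H) := by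
  ext w
  simp only [parSet, oddSet, mem_filter, mem_univ, true_and, mem_insert] at h ⊢
  by_cases hw : w = y
  · subst hw; simp [h]
  · simp [hw]

/-- half-harmonic function -/
noncomputable def psi : ℕ → ℝ
  | 0 => 0
  | 1 => 0
  | m + 2 => psi m + 1 / ((m : ℝ) + 1)

theorem psi_odd (k : ℕ) : psi (2 * k + 1) = (harmonic k : ℝ) / 2 := by
  induction k with
  | zero => simp [psi]
  | succ k ih =>
    rw [show 2 * (k + 1) + 1 = (2 * k + 1) + 2 by ring, psi, ih, harmonic_succ]
    push_cast
    field_simp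
    ring

/-- potential for the even case -/
noncomputable def potE (x : Fin n) (H : Finset (Sym2 (Fin n))) : ℝ :=
  (unused H).card + ((n : ℝ) - 1) * psi (parSet x H).card

theorem Pop_const_on {hn : 2 ≤ n} {g : Fin n → Finset (Sym2 (Fin n)) → ℝ} {x : Fin n}
    {H : Finset (Sym2 (Fin n))} {a : ℝ} (h : ∀ y ∈ opts x H, g y (insert s(x, y) H) = a) :
    Pop g x H = a := by
  unfold Pop
  rw [sum_congr rfl h, sum_const, nsmul_eq_mul]
  have : ((opts x H).card : ℝ) ≠ 0 := by
    exact_mod_cast (card_pos.2 (opts_nonempty hn x H)).ne'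
  field_simp

theorem notMem_oddSet_of_stuck {x : Fin n} {H : Finset (Sym2 (Fin n))}
    (h : ¬ (fresh x H).Nonempty) : x ∉ oddSet H := by
  rw [not_nonempty_iff_eq_empty] at h
  simp [oddSet, h]

theorem potE_step (hn : 2 ≤ n) (x : Fin n) (H : Finset (Sym2 (Fin n))) :
    potE x H ≤ cst x H + Pop potE x H := by
  by_cases h : (fresh x H).Nonempty
  · have h1 : cst x H = 1 := by
      obtain ⟨y, hy⟩ := h
      exact if_pos ⟨_, mk_mem_unused.2 hy⟩
    have h2 : Pop potE x H = potE x H - 1 := by
      apply Pop_const_on (hn := hn)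
      intro y hy
      rw [opts, if_pos h] at hy
      unfold potE
      rw [parSet_greedy hy, unused_insert, card_erase_of_mem (mk_mem_unused.2 hy)]
      have : 0 < (unused H).card := card_pos.2 ⟨_, mk_mem_unused.2 hy⟩
      rw [Nat.cast_sub this]
      push_cast
      ring
    rw [h1, h2]; linarith
  · have hx := notMem_oddSet_of_stuck h
    have hSx : (parSet x H).card = (oddSet H).card + 1 := by
      rw [parSet_of_notMem hx, card_insert_of_notMem hx]
    by_cases hO : (oddSet H).Nonempty
    · have h1 : cst x H = 1 := by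
        obtain ⟨w, hw⟩ := hO
        have : Odd (fresh w H).card := (mem_filter.1 hw).2
        obtain ⟨z, hz⟩ := card_pos.1 this.pos
        exact if_pos ⟨_, mk_mem_unused.2 hz⟩
      obtain ⟨k, hk⟩ : ∃ k, (oddSet H).card = k + 1 :=
        ⟨(oddSet H).card - 1, by have := card_pos.2 hO; omega⟩
      have hsub : oddSet H ⊆ univ.erase x := fun w hw =>
        mem_erase.2 ⟨fun e => hx (e ▸ hw), mem_univ _⟩
      have hcard : ((univ.erase x).card : ℝ) = (n : ℝ) - 1 := by
        rw [card_erase_of_mem (mem_univ _), card_univ, Fintype.card_fin, Nat.cast_sub (by omega)]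
        simp
      have hn1 : (n : ℝ) - 1 ≠ 0 := by
        have : (2 : ℝ) ≤ n := by exact_mod_cast hn
        linarith
      have h2 : Pop potE x H = potE x H - 1 := by
        unfold Pop
        rw [opts, if_neg h, hcard, div_eq_iff hn1]
        have : ∀ y ∈ univ.erase x, potE y (insert s(x, y) H) =
            potE x H - if y ∈ oddSet H then ((n : ℝ) - 1) / ((k : ℝ) + 1) else 0 := by
          intro y hy
          rw [insert_eq_of_stuck h (mem_erase.1 hy).1]
          unfold potE
          rw [hSx, hk]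
          split_ifs with hyO
          · rw [parSet_of_mem hyO, card_erase_of_mem hyO, hk, Nat.add_sub_cancel, psi]
            ring
          · rw [parSet_of_notMem hyO, card_insert_of_notMem hyO, hk]
            ring
        rw [sum_congr rfl this, sum_sub_distrib, sum_const, nsmul_eq_mul, hcard, ← sum_filter,
          filter_mem_eq_inter, inter_eq_right.2 hsub, sum_const, nsmul_eq_mul, hk]
        push_cast
        field_simp
      rw [h1, h2]; linarith
    · have h2 : Pop potE x H = potE x H := by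
        apply Pop_const_on (hn := hn)
        intro y hy
        rw [insert_eq_of_stuck h (ne_of_mem_opts hy)]
        have hyO : y ∉ oddSet H := fun h' => hO ⟨y, h'⟩
        unfold potE
        rw [hSx, parSet_of_notMem hyO, card_insert_of_notMem hyO]
      rw [h2]; linarith [cst_nonneg x H]

theorem fresh_eq_empty_of_unused {H : Finset (Sym2 (Fin n))} (h : ¬ (unused H).Nonempty)
    (w : Fin n) : fresh w H = ∅ := by
  by_contra hne
  obtain ⟨z, hz⟩ := nonempty_iff_ne_empty.2 hne
  exact h ⟨_, mk_mem_unused.2 hz⟩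

theorem potE_eq_zero {x : Fin n} {H : Finset (Sym2 (Fin n))} (h : ¬ (unused H).Nonempty) :
    potE x H = 0 := by
  have hO : oddSet H = ∅ := by
    ext w; simp [oddSet, fresh_eq_empty_of_unused h]
  unfold potE
  rw [parSet_of_notMem (by simp [hO]), hO, not_nonempty_iff_eq_empty.1 h]
  simp [psi]

theorem card_unused_empty : (unused (∅ : Finset (Sym2 (Fin n)))).card = n.choose 2 := by
  have := Sym2.card_subtype_not_diag (α := Fin n)
  rw [Fintype.card_subtype, Fintype.card_fin] at this
  rw [← this]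
  simp [unused]

theorem card_fresh_empty (w : Fin n) : (fresh w ∅).card = n - 1 := by
  have : fresh w ∅ = univ.erase w := by ext z; simp [mem_fresh]
  rw [this, card_erase_of_mem (mem_univ _), card_univ, Fintype.card_fin]

theorem even_lower (hn : 2 ≤ n) (he : Even n) (v : Fin n) :
    ENNReal.ofReal ((n.choose 2 : ℝ) + ((n : ℝ) - 1) / 2 * (harmonic (n / 2 - 1) : ℝ)) ≤
      expCover hn v := by
  obtain ⟨K, hK⟩ : ∃ K, ∀ p : Fin n × Finset (Sym2 (Fin n)), potE p.1 p.2 ≤ K :=
    (Finite.bddAbove_range fun p : Fin n × Finset (Sym2 (Fin n)) => potE p.1 p.2).imp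
      fun C hC p => hC ⟨p, rfl⟩
  apply le_expCover_of_rem hn v _ K
  intro T
  have h1 := lower_pot hn v (fun _ _ _ => True) trivial (fun _ _ _ _ _ _ => trivial) cst
    (fun _ => potE) (fun _ x H _ => potE_step hn x H) T
  have h2 : Ex hn v T potE ≤ K * Ex hn v T cst := by
    rw [← Ex_smul]
    refine Ex_mono hn v (fun _ _ _ => True) trivial (fun _ _ _ _ _ _ => trivial) T _ _ ?_
    intro x H _
    unfold cst
    split_ifs with h
    · simpa using hK (x, H)
    · simp [potE_eq_zero h]
  have h3 : potE v ∅ = (n.choose 2 : ℝ) + ((n : ℝ) - 1) / 2 * (harmonic (n / 2 - 1) : ℝ) := by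
    have hO : oddSet (∅ : Finset (Sym2 (Fin n))) = univ := by
      ext w
      simp only [oddSet, mem_filter, mem_univ, true_and, iff_true, card_fresh_empty]
      obtain ⟨k, hk⟩ := he
      exact ⟨k - 1, by omega⟩
    unfold potE
    rw [card_unused_empty, parSet_of_mem (by simp [hO]), hO, card_erase_of_mem (mem_univ _),
      card_univ, Fintype.card_fin]
    have : n - 1 = 2 * (n / 2 - 1) + 1 := by obtain ⟨k, hk⟩ := he; omega
    rw [this, psi_odd]
    ring
  rw [← h3]
  linarith

end Pool.Agent.MP_3173ec_pr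

end
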